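import Mathlib

/-!
The convex body and the point-finite family of its homothetic copies, from abstract data.
-/

open Metric Set
open scoped InnerProductSpace

namespace Pool.Agent.P.MP_73700b_an

variable {H : Type} [NormedAddCommGroup H] [InnerProductSpace ℝ H]

/-- The vectors used in the construction. -/
structure Data (H : Type) [NormedAddCommGroup H] [InnerProductSpace ℝ H] where
  E : ℕ → H
  v : ℕ → H
  u : ℕ × Fin 3 → H
  w : ℕ × Fin 3 → H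
  hE : ∀ l, ‖E l‖ ≤ 1
  hv : ∀ l, ‖v l‖ ≤ 2
  hu : ∀ α, ‖u α‖ ≤ 2
  hw : ∀ α, ‖w α‖ ≤ 2
  hvE : ∀ l, ⟪v l, E l⟫_ℝ = 1
  hvE' : ∀ l l', l ≠ l' → |⟪v l, E l'⟫_ℝ| ≤ 1 / 10
  hvw0 : ∀ l α, l ≤ α.1 → ⟪v l, w α⟫_ℝ = 0
  hvw : ∀ l α, |⟪v l, w α⟫_ℝ| ≤ 1 / 5
  huE : ∀ α l, ⟪u α, E l⟫_ℝ = 0
  huw : ∀ α, ⟪u α, w α⟫_ℝ = 1
  huw' : ∀ α α', α ≠ α' → |⟪u α, w α'⟫_ℝ| ≤ 1 / 2
  hfin : ∀ (p : H) (η : ℝ), 0 < η → {α | η ≤ ⟪u α, p⟫_ℝ}.Finite
  hsign : ∀ n (y : H), ∃ i, 0 ≤ ⟪u (n, i), y⟫_ℝ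
  hnorm : ∀ y : H, 20 < ‖y‖ → ∃ l, 1 < ⟪v l, y⟫_ℝ

/-- The direction attached to the index `n`. -/
def lv (n : ℕ) : ℕ := (Nat.unpair n).1

/-- The height attached to the index `n`. -/
noncomputable def bb (n : ℕ) : ℝ := 1 / ((n : ℝ) + 1)

theorem lv_le (n : ℕ) : lv n ≤ n := Nat.unpair_left_le n

theorem bb_pos (n : ℕ) : 0 < bb n := by unfold bb; positivity

theorem bb_le (n : ℕ) : bb n ≤ 1 := by
  unfold bb
  rw [div_le_one (by positivity)]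
  have : (0 : ℝ) ≤ n := Nat.cast_nonneg n
  linarith

theorem exists_lv_bb (l : ℕ) (τ : ℝ) (hτ : 0 < τ) : ∃ n, lv n = l ∧ bb n < τ := by
  obtain ⟨K, hK⟩ := exists_nat_one_div_lt hτ
  refine ⟨Nat.pair l K, by simp [lv], lt_of_le_of_lt ?_ hK⟩
  unfold bb
  have h : (K : ℝ) ≤ (Nat.pair l K : ℕ) := by exact_mod_cast Nat.right_le_pair l K
  apply one_div_le_one_div_of_le (by positivity)
  linarith

namespace Data

variable (D : Data H)

/-- The centres. -/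
noncomputable def c (α : ℕ × Fin 3) : H := (1000 : ℝ) • D.E (lv α.1) + (200 : ℝ) • D.w α

/-- The floor functionals. -/
noncomputable def fl (α : ℕ × Fin 3) : H := D.v (lv α.1) + bb α.1 • D.u α

/-- The soft functionals. -/
noncomputable def so (α : ℕ × Fin 3) (m : ℕ) : H := (300 : ℝ) • D.u α - D.v (lv m)

/-- The body. -/
def B : Set H :=
  {x | ‖x‖ ≤ 1500 ∧ (∀ α, |⟪D.fl α, x⟫_ℝ| ≤ ⟪D.fl α, D.c α⟫_ℝ - 1 - bb α.1) ∧
    ∀ α m, m < α.1 → |⟪D.so α m, x⟫_ℝ| ≤ ⟪D.so α m, D.c α⟫_ℝ + 1 + bb m}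

theorem norm_c (α : ℕ × Fin 3) : ‖D.c α‖ ≤ 1400 := by
  unfold c
  have h1 := D.hE (lv α.1)
  have h2 := D.hw α
  calc _ ≤ ‖(1000 : ℝ) • D.E (lv α.1)‖ + ‖(200 : ℝ) • D.w α‖ := norm_add_le _ _
    _ = 1000 * ‖D.E (lv α.1)‖ + 200 * ‖D.w α‖ := by
        rw [norm_smul, norm_smul]; norm_num
    _ ≤ 1400 := by linarith

theorem u_c (α α' : ℕ × Fin 3) : ⟪D.u α, D.c α'⟫_ℝ = 200 * ⟪D.u α, D.w α'⟫_ℝ := by
  unfold c
  rw [inner_add_right, real_inner_smul_right, real_inner_smul_right, D.huE]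
  ring

theorem v_c (l : ℕ) (α' : ℕ × Fin 3) :
    ⟪D.v l, D.c α'⟫_ℝ = 1000 * ⟪D.v l, D.E (lv α'.1)⟫_ℝ + 200 * ⟪D.v l, D.w α'⟫_ℝ := by
  unfold c
  rw [inner_add_right, real_inner_smul_right, real_inner_smul_right]

theorem v_c_self (α : ℕ × Fin 3) : ⟪D.v (lv α.1), D.c α⟫_ℝ = 1000 := by
  rw [v_c, D.hvE, D.hvw0 _ _ (lv_le _)]
  norm_num

theorem fl_inner (α : ℕ × Fin 3) (x : H) :
    ⟪D.fl α, x⟫_ℝ = ⟪D.v (lv α.1), x⟫_ℝ + bb α.1 * ⟪D.u α, x⟫_ℝ := by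
  unfold fl
  rw [inner_add_left, real_inner_smul_left]

theorem so_inner (α : ℕ × Fin 3) (m : ℕ) (x : H) :
    ⟪D.so α m, x⟫_ℝ = 300 * ⟪D.u α, x⟫_ℝ - ⟪D.v (lv m), x⟫_ℝ := by
  unfold so
  rw [inner_sub_left, real_inner_smul_left]

theorem fl_c (α : ℕ × Fin 3) : ⟪D.fl α, D.c α⟫_ℝ = 1000 + bb α.1 * 200 := by
  rw [fl_inner, v_c_self, u_c, D.huw]
  norm_num

theorem abs_v (l : ℕ) (x : H) : |⟪D.v l, x⟫_ℝ| ≤ 2 * ‖x‖ :=
  (abs_real_inner_le_norm _ _).trans (mul_le_mul_of_nonneg_right (D.hv l) (norm_nonneg _))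

theorem abs_u (α : ℕ × Fin 3) (x : H) : |⟪D.u α, x⟫_ℝ| ≤ 2 * ‖x‖ :=
  (abs_real_inner_le_norm _ _).trans (mul_le_mul_of_nonneg_right (D.hu α) (norm_nonneg _))

theorem so_c (α : ℕ × Fin 3) (m : ℕ) : 57200 ≤ ⟪D.so α m, D.c α⟫_ℝ := by
  rw [so_inner, u_c, D.huw]
  have h1 := abs_le.1 (D.abs_v (lv m) (D.c α))
  have h2 := D.norm_c α
  linarith [h1.2]

theorem B_convex : Convex ℝ D.B := by
  have key : ∀ (ψ : H) (t : ℝ), Convex ℝ {x : H | |⟪ψ, x⟫_ℝ| ≤ t} := by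
    intro ψ t x hx y hy a b ha hb hab
    simp only [mem_ofPred_eq] at hx hy ⊢
    rw [inner_add_right, real_inner_smul_right, real_inner_smul_right]
    calc _ ≤ |a * ⟪ψ, x⟫_ℝ| + |b * ⟪ψ, y⟫_ℝ| := abs_add_le _ _
      _ = a * |⟪ψ, x⟫_ℝ| + b * |⟪ψ, y⟫_ℝ| := by rw [abs_mul, abs_mul, abs_of_nonneg ha, abs_of_nonneg hb]
      _ ≤ a * t + b * t := by gcongr
      _ = t := by rw [← add_mul, hab, one_mul]
  intro x hx y hy a b ha hb hab
  refine ⟨?_, fun α => key _ _ (hx.2.1 α) (hy.2.1 α) ha hb hab,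
    fun α m hm => key _ _ (hx.2.2 α m hm) (hy.2.2 α m hm) ha hb hab⟩
  have h1 : x ∈ closedBall (0 : H) 1500 := by simpa using hx.1
  have h2 : y ∈ closedBall (0 : H) 1500 := by simpa using hy.1
  simpa using convex_closedBall (0 : H) 1500 h1 h2 ha hb hab

theorem B_closed : IsClosed D.B := by
  have key : ∀ (ψ : H) (t : ℝ), IsClosed {x : H | |⟪ψ, x⟫_ℝ| ≤ t} := fun ψ t =>
    isClosed_le (by fun_prop) continuous_const
  have h : D.B = {x : H | ‖x‖ ≤ 1500} ∩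
      ((⋂ α, {x : H | |⟪D.fl α, x⟫_ℝ| ≤ ⟪D.fl α, D.c α⟫_ℝ - 1 - bb α.1}) ∩
      ⋂ α, ⋂ m, ⋂ (_ : m < α.1), {x : H | |⟪D.so α m, x⟫_ℝ| ≤ ⟪D.so α m, D.c α⟫_ℝ + 1 + bb m}) := by
    ext x
    simp [B]
  rw [h]
  refine (isClosed_le continuous_norm continuous_const).inter
    ((isClosed_iInter fun α => key _ _).inter ?_)
  exact isClosed_iInter fun α => isClosed_iInter fun m => isClosed_iInter fun _ => key _ _

theorem B_neg (x : H) (hx : x ∈ D.B) : -x ∈ D.B := by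
  refine ⟨by simpa using hx.1, fun α => ?_, fun α m hm => ?_⟩
  · rw [inner_neg_right, abs_neg]; exact hx.2.1 α
  · rw [inner_neg_right, abs_neg]; exact hx.2.2 α m hm

theorem B_sub : D.B ⊆ closedBall 0 1500 := fun x hx => by simpa using hx.1

theorem sub_B : closedBall (0 : H) 20 ⊆ D.B := by
  intro x hx
  have hx' : ‖x‖ ≤ 20 := by simpa using hx
  refine ⟨by linarith, fun α => ?_, fun α m _ => ?_⟩
  · rw [fl_c, fl_inner]
    have h1 := abs_le.1 (D.abs_v (lv α.1) x)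
    have h2 := abs_le.1 (D.abs_u α x)
    have h3 := bb_pos α.1
    have h4 := bb_le α.1
    rw [abs_le]
    constructor <;> nlinarith [h1.1, h1.2, h2.1, h2.2]
  · have h0 := D.so_c α m
    rw [so_inner D α m x]
    have h1 := abs_le.1 (D.abs_v (lv m) x)
    have h2 := abs_le.1 (D.abs_u α x)
    have h3 := bb_pos m
    rw [abs_le]
    constructor <;> linarith [h1.1, h1.2, h2.1, h2.2]

/-- The points that the translate with index `α` is designed to cover. -/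
def Target (α : ℕ × Fin 3) : Set H :=
  {y | ‖y‖ ≤ 40 ∧ 0 ≤ ⟪D.u α, y⟫_ℝ ∧ 1 + bb α.1 ≤ ⟪D.v (lv α.1), y⟫_ℝ ∧
    ∀ m, m < α.1 → ⟪D.v (lv m), y⟫_ℝ ≤ 1 + bb m}

theorem target_mem (α' : ℕ × Fin 3) (y : H) (hy : y ∈ D.Target α') : D.c α' - y ∈ D.B := by
  obtain ⟨hy1, hy2, hy3, hy4⟩ := hy
  have hc := D.norm_c α'
  refine ⟨(norm_sub_le _ _).trans (by linarith), fun α => ?_, fun α m hm => ?_⟩
  · rw [fl_c, inner_sub_right, fl_inner, fl_inner, u_c, v_c]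
    have h1 := abs_le.1 (D.abs_v (lv α.1) y)
    have h2 := abs_le.1 (D.abs_u α y)
    have h3 := bb_pos α.1
    have h4 := bb_le α.1
    have h3' := bb_pos α'.1
    by_cases hα : α = α'
    · subst hα
      rw [D.hvE, D.hvw0 _ _ (lv_le _), D.huw, abs_le]
      constructor <;> nlinarith [h1.1, h1.2, h2.1, h2.2, mul_nonneg h3.le hy2]
    · have h5 := abs_le.1 (D.huw' α α' hα)
      by_cases hl : lv α.1 = lv α'.1
      · rw [← hl] at hy3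
        rw [← hl, D.hvE, D.hvw0 _ _ (hl ▸ lv_le _), abs_le]
        constructor <;> nlinarith [h1.1, h1.2, h2.1, h2.2, h5.1, h5.2]
      · have h6 := abs_le.1 (D.hvE' _ _ hl)
        have h7 := abs_le.1 (D.hvw (lv α.1) α')
        rw [abs_le]
        constructor <;> nlinarith [h1.1, h1.2, h2.1, h2.2, h5.1, h5.2, h6.1, h6.2, h7.1, h7.2]
  · have h0 := D.so_c α m
    have h1 := abs_le.1 (D.abs_v (lv m) y)
    have h2 := abs_le.1 (D.abs_u α y)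
    have h3 := bb_pos m
    by_cases hα : α = α'
    · subst hα
      have h4 := hy4 m hm
      rw [inner_sub_right, so_inner D α m y, abs_le]
      constructor <;> linarith [h1.1, h1.2, h2.1, h2.2]
    · have h5 := abs_le.1 (D.huw' α α' hα)
      have h6 := abs_le.1 (D.abs_v (lv m) (D.c α'))
      rw [inner_sub_right, so_inner D α m y, so_inner D α m (D.c α'), u_c, abs_le]
      constructor <;> linarith [h1.1, h1.2, h2.1, h2.2, h5.1, h5.2, h6.1, h6.2]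

theorem exists_target (y : H) (h1 : 20 < ‖y‖) (h2 : ‖y‖ ≤ 40) : ∃ α, y ∈ D.Target α := by
  classical
  obtain ⟨l, hl⟩ := D.hnorm y h1
  obtain ⟨n, hn1, hn2⟩ := exists_lv_bb l (⟪D.v l, y⟫_ℝ - 1) (by linarith)
  have hex : ∃ n, 1 + bb n ≤ ⟪D.v (lv n), y⟫_ℝ := ⟨n, by rw [hn1]; linarith⟩
  obtain ⟨i, hi⟩ := D.hsign (Nat.find hex) y
  refine ⟨(Nat.find hex, i), h2, hi, Nat.find_spec hex, fun m hm => ?_⟩
  exact (not_le.1 (Nat.find_min hex hm)).le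

theorem floor_of_mem (α : ℕ × Fin 3) (p : H) (hp : D.c α - p ∈ D.B) (hr : ⟪D.u α, p⟫_ℝ < 1) :
    1 < ⟪D.v (lv α.1), p⟫_ℝ := by
  have h := (abs_le.1 (hp.2.1 α)).2
  rw [inner_sub_right, fl_inner D α p] at h
  have h3 := bb_pos α.1
  nlinarith

theorem soft_of_mem (α : ℕ × Fin 3) (p : H) (hp : D.c α - p ∈ D.B) (m : ℕ) (hm : m < α.1) :
    ⟪D.v (lv m), p⟫_ℝ ≤ 1 + bb m + 300 * ⟪D.u α, p⟫_ℝ := by
  have h := (abs_le.1 (hp.2.2 α m hm)).2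
  rw [inner_sub_right, so_inner D α m p] at h
  linarith

theorem not_mem_small (α : ℕ × Fin 3) (p : H) (hp : ‖p‖ < 1 / 2) : D.c α - p ∉ D.B := by
  intro h
  have h1 := abs_le.1 (D.abs_v (lv α.1) p)
  have h2 := abs_le.1 (D.abs_u α p)
  have := D.floor_of_mem α p h (by linarith [h2.2])
  linarith [h1.2]

theorem finite_mem (p : H) : {α | D.c α - p ∈ D.B}.Finite := by
  by_cases h : ∃ l, 1 < ⟪D.v l, p⟫_ℝ
  · obtain ⟨l, hl⟩ := h
    obtain ⟨m, hm1, hm2⟩ := exists_lv_bb l ((⟪D.v l, p⟫_ℝ - 1) / 2) (by linarith)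
    have hf1 := D.hfin p ((⟪D.v l, p⟫_ℝ - 1) / 600) (by linarith)
    have hf2 : {α : ℕ × Fin 3 | α.1 ≤ m}.Finite := by
      refine ((Set.finite_Iic m).prod (Set.finite_univ (α := Fin 3))).subset ?_
      intro α hα
      exact ⟨hα, trivial⟩
    refine (hf1.union hf2).subset ?_
    intro α hα
    by_contra hcon
    simp only [mem_union, mem_ofPred_eq, not_or, not_le] at hcon
    have := D.soft_of_mem α p hα m hcon.2
    rw [hm1] at this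
    linarith [hcon.1]
  · refine (D.hfin p 1 one_pos).subset ?_
    intro α hα
    by_contra hcon
    simp only [mem_ofPred_eq, not_le] at hcon
    exact h ⟨_, D.floor_of_mem α p hα hcon⟩

theorem cover (z : H) : z ∈ D.B ∨ ∃ (j : ℕ) (α : ℕ × Fin 3), D.c α - ((2 : ℝ) ^ j)⁻¹ • z ∈ D.B := by
  classical
  by_cases hz : ‖z‖ ≤ 20
  · exact Or.inl (D.sub_B (by simpa using hz))
  · right
    have hex : ∃ j : ℕ, ‖z‖ ≤ 40 * (2 : ℝ) ^ j := by
      obtain ⟨j, hj⟩ := pow_unbounded_of_one_lt ‖z‖ (one_lt_two (α := ℝ))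
      exact ⟨j, by nlinarith [norm_nonneg z]⟩
    have h1 := Nat.find_spec hex
    have h2 : 20 * (2 : ℝ) ^ Nat.find hex < ‖z‖ := by
      rcases Nat.eq_zero_or_pos (Nat.find hex) with h | h
      · rw [h]; simpa using hz
      · have := not_le.1 (Nat.find_min hex (Nat.sub_one_lt_of_lt h))
        have h3 : (2 : ℝ) ^ Nat.find hex = 2 * 2 ^ (Nat.find hex - 1) := by
          conv_lhs => rw [← Nat.sub_add_cancel h, pow_succ]
          ring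
        rw [h3]; linarith
    have hpos : (0 : ℝ) < 2 ^ Nat.find hex := by positivity
    have hn : ‖((2 : ℝ) ^ Nat.find hex)⁻¹ • z‖ = ‖z‖ / 2 ^ Nat.find hex := by
      rw [norm_smul, norm_inv, Real.norm_of_nonneg hpos.le, inv_mul_eq_div]
    obtain ⟨α, hα⟩ := D.exists_target (((2 : ℝ) ^ Nat.find hex)⁻¹ • z)
      (by rw [hn, lt_div_iff₀ hpos]; exact h2) (by rw [hn, div_le_iff₀ hpos]; exact h1)
    exact ⟨_, α, D.target_mem α _ hα⟩

theorem finite_scaled (z : H) :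
    {q : ℕ × (ℕ × Fin 3) | D.c q.2 - ((2 : ℝ) ^ q.1)⁻¹ • z ∈ D.B}.Finite := by
  obtain ⟨J, hJ⟩ := pow_unbounded_of_one_lt (2 * ‖z‖) (one_lt_two (α := ℝ))
  have hf : (⋃ j ∈ Set.Iic J, (fun α => (j, α)) ''
      {α | D.c α - ((2 : ℝ) ^ j)⁻¹ • z ∈ D.B}).Finite :=
    (Set.finite_Iic J).biUnion fun j _ => (D.finite_mem _).image _
  refine hf.subset ?_
  rintro ⟨j, α⟩ hq
  simp only [mem_iUnion, mem_image, mem_ofPred_eq, mem_Iic]
  refine ⟨j, ?_, α, hq, rfl⟩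
  by_contra hj
  refine D.not_mem_small α _ ?_ hq
  have hpos : (0 : ℝ) < 2 ^ j := by positivity
  have h1 : (2 : ℝ) ^ J ≤ 2 ^ j := pow_le_pow_right₀ one_le_two (not_le.1 hj).le
  rw [norm_smul, norm_inv, Real.norm_of_nonneg hpos.le, inv_mul_eq_div, div_lt_iff₀ hpos]
  linarith

end Data

end Pool.Agent.P.MP_73700b_an
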