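import Mathlib
import Pool.Agent.P.MP_73700b_an.Cover

/-!
The data of the construction exist in a Hilbert space with a countable Hilbert basis.
-/

open Metric Set Filter Topology
open scoped InnerProductSpace

namespace Pool.Agent.P.MP_73700b_an

variable {H : Type} [NormedAddCommGroup H] [InnerProductSpace ℝ H]

theorem separable_of_basis (b : HilbertBasis ℕ ℝ H) : TopologicalSpace.SeparableSpace H := by
  have h1 : TopologicalSpace.IsSeparable (range b) := (countable_range _).isSeparable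
  have h2 := (h1.span (R := ℝ)).closure
  rw [← TopologicalSpace.isSeparable_univ_iff]
  have h3 : closure ((Submodule.span ℝ (range b) : Submodule ℝ H) : Set H) = univ := by
    rw [← Submodule.topologicalClosure_coe, b.dense_span]
    rfl
  rwa [h3] at h2

theorem coord_tendsto (b : HilbertBasis ℕ ℝ H) (y : H) :
    Tendsto (fun i => ⟪b i, y⟫_ℝ) atTop (𝓝 0) := by
  have h := (b.orthonormal.inner_products_summable y).tendsto_atTop_zero
  have h2 := (Real.continuous_sqrt.tendsto 0).comp h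
  rw [Real.sqrt_zero] at h2
  rw [tendsto_zero_iff_norm_tendsto_zero]
  refine h2.congr fun i => ?_
  simp only [Function.comp]
  rw [Real.sqrt_sq (norm_nonneg _)]

/-- The projection to the first `m` coordinates. -/
noncomputable def proj (b : HilbertBasis ℕ ℝ H) (m : ℕ) (x : H) : H :=
  ∑ i ∈ Finset.range m, ⟪b i, x⟫_ℝ • b i

theorem norm_proj (b : HilbertBasis ℕ ℝ H) (m : ℕ) (x : H) : ‖proj b m x‖ ≤ ‖x‖ := by
  have h1 := b.orthonormal.sum_inner_products_le x (s := Finset.range m)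
  have h2 := b.orthonormal.inner_sum (fun i => ⟪b i, x⟫_ℝ) (fun i => ⟪b i, x⟫_ℝ) (Finset.range m)
  have h3 : ‖proj b m x‖ ^ 2 ≤ ‖x‖ ^ 2 := by
    rw [← real_inner_self_eq_norm_sq]
    unfold proj
    rw [h2]
    refine le_trans (le_of_eq ?_) h1
    refine Finset.sum_congr rfl fun i _ => ?_
    simp [sq]
  exact (pow_le_pow_iff_left₀ (norm_nonneg _) (norm_nonneg _) two_ne_zero).1 h3

theorem proj_orth (b : HilbertBasis ℕ ℝ H) (m : ℕ) (x : H) (i : ℕ) (hi : m ≤ i) :
    ⟪proj b m x, b i⟫_ℝ = 0 := by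
  unfold proj
  rw [sum_inner]
  refine Finset.sum_eq_zero fun j hj => ?_
  have : j ≠ i := by
    have := Finset.mem_range.1 hj
    omega
  rw [real_inner_smul_left, b.orthonormal.inner_eq_zero this, mul_zero]

theorem proj_tendsto (b : HilbertBasis ℕ ℝ H) (x y : H) :
    Tendsto (fun m => ⟪proj b m x, y⟫_ℝ) atTop (𝓝 ⟪x, y⟫_ℝ) := by
  refine (b.hasSum_inner_mul_inner x y).tendsto_sum_nat.congr fun m => ?_
  unfold proj
  rw [sum_inner]
  refine Finset.sum_congr rfl fun j _ => ?_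
  rw [real_inner_smul_left, real_inner_comm x]

theorem exists_U (b : HilbertBasis ℕ ℝ H) : ∃ U : ℕ → H, (∀ l, ‖U l‖ ≤ 1) ∧
    (∀ l i, l ≤ i → ⟪U l, b i⟫_ℝ = 0) ∧
    ∀ y : H, 20 < ‖y‖ → ∀ K, ∃ l, K ≤ l ∧ 15 < ⟪U l, y⟫_ℝ := by
  have := separable_of_basis b
  have hne : Nonempty (closedBall (0 : H) 1) := ⟨⟨0, by simp⟩⟩
  let x : ℕ → H := fun j => (TopologicalSpace.denseSeq (closedBall (0 : H) 1) j : H)
  have hx1 : ∀ j, ‖x j‖ ≤ 1 := fun j =>
    mem_closedBall_zero_iff.1 (TopologicalSpace.denseSeq (closedBall (0 : H) 1) j).2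
  refine ⟨fun l => proj b l (x (Nat.unpair l).1), fun l => (norm_proj _ _ _).trans (hx1 _),
    fun l i hi => proj_orth _ _ _ _ hi, fun y hy K => ?_⟩
  have hy0 : 0 < ‖y‖ := by linarith
  have hmem : ‖y‖⁻¹ • y ∈ closedBall (0 : H) 1 := by
    rw [mem_closedBall_zero_iff, norm_smul, norm_inv, norm_norm, inv_mul_cancel₀ hy0.ne']
  obtain ⟨j, hj⟩ := Metric.denseRange_iff.1
    (TopologicalSpace.denseRange_denseSeq (closedBall (0 : H) 1)) ⟨_, hmem⟩ (1 / 4) (by norm_num)
  have hj' : ‖‖y‖⁻¹ • y - x j‖ < 1 / 4 := by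
    rw [← dist_eq_norm]; exact hj
  have h15 : 15 < ⟪x j, y⟫_ℝ := by
    have h1 : ⟪‖y‖⁻¹ • y - x j, y⟫_ℝ ≤ ‖‖y‖⁻¹ • y - x j‖ * ‖y‖ := real_inner_le_norm _ _
    rw [inner_sub_left, real_inner_smul_left, real_inner_self_eq_norm_sq] at h1
    have h2 : ‖y‖⁻¹ * ‖y‖ ^ 2 = ‖y‖ := by field_simp
    rw [h2] at h1
    nlinarith
  obtain ⟨N, hN⟩ := eventually_atTop.1 ((proj_tendsto b (x j) y).eventually (lt_mem_nhds h15))
  refine ⟨Nat.pair j (max N K), (le_max_right _ _).trans (Nat.right_le_pair _ _), ?_⟩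
  simp only [Nat.unpair_pair]
  exact hN _ ((le_max_left _ _).trans (Nat.right_le_pair _ _))

/-- Coefficients. -/
def ua : Fin 3 → ℝ := ![1, 0, -1]
/-- Coefficients. -/
def ub : Fin 3 → ℝ := ![0, 1, -1]
/-- Coefficients. -/
noncomputable def wa : Fin 3 → ℝ := ![1, -1 / 2, -1 / 2]
/-- Coefficients. -/
noncomputable def wb : Fin 3 → ℝ := ![-1 / 2, 1, -1 / 2]

theorem abs_ua (i : Fin 3) : |ua i| ≤ 1 := by fin_cases i <;> simp [ua]
theorem abs_ub (i : Fin 3) : |ub i| ≤ 1 := by fin_cases i <;> simp [ub]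
theorem abs_wa (i : Fin 3) : |wa i| ≤ 1 := by
  fin_cases i <;> simp [wa, abs_le] <;> norm_num
theorem abs_wb (i : Fin 3) : |wb i| ≤ 1 := by
  fin_cases i <;> simp [wb, abs_le] <;> norm_num
theorem uw_self (i : Fin 3) : ua i * wa i + ub i * wb i = 1 := by
  fin_cases i <;> norm_num [ua, ub, wa, wb]
theorem uw_ne (i j : Fin 3) (h : i ≠ j) : ua i * wa j + ub i * wb j = -1 / 2 := by
  fin_cases i <;> fin_cases j <;> simp_all [ua, ub, wa, wb] <;> norm_num

theorem norm_comb (b : HilbertBasis ℕ ℝ H) (s t : ℝ) (hs : |s| ≤ 1) (ht : |t| ≤ 1) (i j : ℕ) :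
    ‖s • b i + t • b j‖ ≤ 2 := by
  have h1 := b.orthonormal.1 i
  have h2 := b.orthonormal.1 j
  calc _ ≤ ‖s • b i‖ + ‖t • b j‖ := norm_add_le _ _
    _ = |s| + |t| := by rw [norm_smul, norm_smul, h1, h2]; simp
    _ ≤ 2 := by linarith

theorem exists_data (b : HilbertBasis ℕ ℝ H) : Nonempty (Data H) := by
  classical
  obtain ⟨U, hU1, hU2, hU3⟩ := exists_U b
  have hb := orthonormal_iff_ite.1 b.orthonormal
  have hb1 := b.orthonormal.1
  have hUb : ∀ l x, |⟪U l, x⟫_ℝ| ≤ ‖x‖ := fun l x =>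
    (abs_real_inner_le_norm _ _).trans (by nlinarith [hU1 l, norm_nonneg x])
  refine ⟨{
    E := fun l => b (3 * l)
    v := fun l => (1 / 10 : ℝ) • U l + b (3 * l)
    u := fun α => ua α.2 • b (3 * α.1 + 1) + ub α.2 • b (3 * α.1 + 2)
    w := fun α => wa α.2 • b (3 * α.1 + 1) + wb α.2 • b (3 * α.1 + 2)
    hE := fun l => (hb1 _).le
    hv := fun l => ?_
    hu := fun α => norm_comb b _ _ (abs_ua _) (abs_ub _) _ _
    hw := fun α => norm_comb b _ _ (abs_wa _) (abs_wb _) _ _
    hvE := fun l => ?_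
    hvE' := fun l l' h => ?_
    hvw0 := fun l α h => ?_
    hvw := fun l α => ?_
    huE := fun α l => ?_
    huw := fun α => ?_
    huw' := fun α α' h => ?_
    hfin := fun p η hη => ?_
    hsign := fun n y => ?_
    hnorm := fun y hy => ?_ }⟩
  · have := hU1 l
    calc _ ≤ ‖(1 / 10 : ℝ) • U l‖ + ‖b (3 * l)‖ := norm_add_le _ _
      _ = 1 / 10 * ‖U l‖ + 1 := by rw [norm_smul, hb1]; norm_num
      _ ≤ 2 := by linarith
  · rw [inner_add_left, real_inner_smul_left, hU2 l _ (by omega), hb]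
    simp
  · rw [inner_add_left, real_inner_smul_left, hb, if_neg (by omega), add_zero, abs_mul]
    have := hUb l (b (3 * l'))
    rw [hb1] at this
    rw [abs_of_pos (by norm_num)]
    linarith
  · simp only [inner_add_left, inner_add_right, real_inner_smul_left, real_inner_smul_right]
    rw [hU2 l _ (by omega), hU2 l _ (by omega), hb, hb, if_neg (by omega), if_neg (by omega)]
    simp
  · rw [inner_add_left, real_inner_smul_left]
    have h1 := hUb l (wa α.2 • b (3 * α.1 + 1) + wb α.2 • b (3 * α.1 + 2))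
    have h2 := norm_comb b _ _ (abs_wa α.2) (abs_wb α.2) (3 * α.1 + 1) (3 * α.1 + 2)
    have h3 : ⟪b (3 * l), wa α.2 • b (3 * α.1 + 1) + wb α.2 • b (3 * α.1 + 2)⟫_ℝ = 0 := by
      rw [inner_add_right, real_inner_smul_right, real_inner_smul_right, hb, hb,
        if_neg (by omega), if_neg (by omega)]
      simp
    rw [h3, add_zero, abs_mul, abs_of_pos (by norm_num)]
    linarith
  · rw [inner_add_left, real_inner_smul_left, real_inner_smul_left, hb, hb,
      if_neg (by omega), if_neg (by omega)]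
    simp
  · simp only [inner_add_left, inner_add_right, real_inner_smul_left, real_inner_smul_right, hb]
    have := uw_self α.2
    have h1 : ¬ (3 * α.1 + 1 = 3 * α.1 + 2) := by omega
    have h2 : ¬ (3 * α.1 + 2 = 3 * α.1 + 1) := by omega
    simp only [if_true, if_neg h1, if_neg h2]
    linarith
  · simp only [inner_add_left, inner_add_right, real_inner_smul_left, real_inner_smul_right, hb]
    by_cases h1 : α.1 = α'.1
    · have h2 : α.2 ≠ α'.2 := fun h2 => h (Prod.ext h1 h2)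
      have := uw_ne _ _ h2
      rw [if_pos (by omega), if_neg (by omega), if_neg (by omega), if_pos (by omega), abs_le]
      constructor <;> linarith
    · rw [if_neg (by omega), if_neg (by omega), if_neg (by omega), if_neg (by omega)]
      simp
  · have h1 := (tendsto_zero_iff_norm_tendsto_zero.1 (coord_tendsto b p)).eventually
      (gt_mem_nhds (half_pos hη))
    obtain ⟨N, hN⟩ := eventually_atTop.1 h1
    refine ((Set.finite_Iio N).prod (Set.finite_univ (α := Fin 3))).subset ?_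
    intro α hα
    refine ⟨?_, trivial⟩
    by_contra hcon
    have hcon' : N ≤ α.1 := not_lt.1 hcon
    have h2 := hN (3 * α.1 + 1) (by omega)
    have h3 := hN (3 * α.1 + 2) (by omega)
    rw [Real.norm_eq_abs] at h2 h3
    have h4 : η ≤ ⟪ua α.2 • b (3 * α.1 + 1) + ub α.2 • b (3 * α.1 + 2), p⟫_ℝ := hα
    rw [inner_add_left, real_inner_smul_left, real_inner_smul_left] at h4
    have h5 : ua α.2 * ⟪b (3 * α.1 + 1), p⟫_ℝ ≤ |⟪b (3 * α.1 + 1), p⟫_ℝ| := by
      refine (le_abs_self _).trans ?_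
      rw [abs_mul]
      exact mul_le_of_le_one_left (abs_nonneg _) (abs_ua _)
    have h6 : ub α.2 * ⟪b (3 * α.1 + 2), p⟫_ℝ ≤ |⟪b (3 * α.1 + 2), p⟫_ℝ| := by
      refine (le_abs_self _).trans ?_
      rw [abs_mul]
      exact mul_le_of_le_one_left (abs_nonneg _) (abs_ub _)
    linarith
  · simp only [inner_add_left, real_inner_smul_left]
    by_contra hcon
    push Not at hcon
    have h0 := hcon 0
    have h1 := hcon 1
    have h2 := hcon 2
    simp [ua, ub] at h0 h1 h2
    linarith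
  · have h1 := (coord_tendsto b y).eventually (lt_mem_nhds (show (-1 / 2 : ℝ) < 0 by norm_num))
    obtain ⟨N, hN⟩ := eventually_atTop.1 h1
    obtain ⟨l, hl1, hl2⟩ := hU3 y hy N
    refine ⟨l, ?_⟩
    have := hN (3 * l) (by omega)
    rw [inner_add_left, real_inner_smul_left]
    linarith

end Pool.Agent.P.MP_73700b_an
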