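import Pool.Agent.P.MP_73700b_an.CoverCore

/-!
The new norm, the renormed space, and existence of the data in `ℓ²(Γ)`.
-/

namespace Pool.Agent.P.MP_73700b_an.Cover

open scoped RealInnerProductSpace

universe u

section Renorm

variable {H : Type u} [NormedAddCommGroup H] [NormedSpace ℝ H]

/-- An equivalent norm, as a seminorm with two-sided bounds. -/
structure EqNorm (H : Type u) [NormedAddCommGroup H] [NormedSpace ℝ H] where
  p : Seminorm ℝ H
  C : ℝ
  lower : ∀ x, ‖x‖ ≤ C * p x
  upper : ∀ x, p x ≤ C * ‖x‖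

/-- The renormed space. -/
def Renorm (_N : EqNorm H) : Type u := H

variable (N : EqNorm H)

instance : AddCommGroup (Renorm N) := inferInstanceAs (AddCommGroup H)

instance : Module ℝ (Renorm N) := inferInstanceAs (Module ℝ H)

/-- The identity map. -/
def Renorm.toOrig : Renorm N ≃ₗ[ℝ] H := LinearEquiv.refl ℝ H

instance : Norm (Renorm N) := ⟨fun x => N.p (Renorm.toOrig N x)⟩

lemma Renorm.norm_def (x : Renorm N) : ‖x‖ = N.p (Renorm.toOrig N x) := rfl

lemma Renorm.core : NormedSpace.Core ℝ (Renorm N) where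
  norm_nonneg x := apply_nonneg N.p _
  norm_smul c x := by
    rw [Renorm.norm_def, Renorm.norm_def, map_smul, map_smul_eq_mul]
  norm_triangle x y := by
    rw [Renorm.norm_def, Renorm.norm_def, Renorm.norm_def, map_add]
    exact map_add_le_add _ _ _
  norm_eq_zero_iff x := by
    rw [Renorm.norm_def]
    constructor
    · intro h
      have := N.lower (Renorm.toOrig N x)
      rw [h, mul_zero, norm_le_zero_iff] at this
      exact (Renorm.toOrig N).map_eq_zero_iff.1 this
    · rintro rfl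
      rw [map_zero, map_zero]

noncomputable instance : NormedAddCommGroup (Renorm N) :=
  NormedAddCommGroup.ofCore (Renorm.core N)

noncomputable instance : NormedSpace ℝ (Renorm N) := NormedSpace.ofCore (Renorm.core N)

/-- The identity map as a linear homeomorphism. -/
noncomputable def Renorm.equiv : Renorm N ≃L[ℝ] H :=
  (Renorm.toOrig N).toContinuousLinearEquivOfBounds N.C N.C
    (fun _ => N.lower _) (fun x => N.upper x)

lemma Renorm.norm_eq (x : Renorm N) : ‖x‖ = N.p (Renorm.equiv N x) := rfl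

end Renorm

/-- A space isomorphic to a Hilbert space is reflexive. -/
lemma reflexive_of_equiv {X H : Type*} [NormedAddCommGroup X] [NormedSpace ℝ X]
    [NormedAddCommGroup H] [InnerProductSpace ℝ H] [CompleteSpace H] (e : X ≃L[ℝ] H) :
    Function.Surjective (NormedSpace.inclusionInDoubleDual ℝ X) := by
  intro Φ
  let T : H →L[ℝ] StrongDual ℝ X :=
    ((ContinuousLinearMap.compL ℝ X H ℝ).flip (e : X →L[ℝ] H)).comp (innerSL ℝ)
  have hT : ∀ h x, T h x = ⟪h, e x⟫ := fun h x => rfl
  let h₀ : H := (InnerProductSpace.toDual ℝ H).symm (Φ.comp T)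
  have hh₀ : ∀ h, ⟪h₀, h⟫ = Φ (T h) := fun h => InnerProductSpace.toDual_symm_apply
  refine ⟨e.symm h₀, ?_⟩
  ext g
  let h : H := (InnerProductSpace.toDual ℝ H).symm (g.comp (e.symm : H →L[ℝ] X))
  have hh : ∀ k, ⟪h, k⟫ = g (e.symm k) := fun k => InnerProductSpace.toDual_symm_apply
  have hg : T h = g := by
    ext x
    rw [hT, hh, ContinuousLinearEquiv.symm_apply_apply]
  rw [NormedSpace.dual_def, ← hh, real_inner_comm, hh₀, hg]

section NewNorm

variable {H : Type u} [NormedAddCommGroup H] [InnerProductSpace ℝ H]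
variable {J : Type*} [LinearOrder J] (d : Data H J)

/-- Index type of the walls. -/
abbrev Wall (J : Type*) [LinearOrder J] := J ⊕ {q : J × (J × Lv) // q.1 ≤ q.2.1}

/-- The normalised wall functionals. -/
noncomputable def Data.ψ : Wall J → H → ℝ
  | Sum.inl j, z => d.f j z / 100
  | Sum.inr q, z => d.φ q.1.1 q.1.2 z / d.t q.1.1 q.1.2

lemma Data.ψ_add (a : Wall J) (x y : H) : d.ψ a (x + y) = d.ψ a x + d.ψ a y := by
  rcases a with j | q
  · simp only [Data.ψ, Data.f_add, add_div]
  · simp only [Data.ψ, Data.φ_add, add_div]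

lemma Data.ψ_smul (a : Wall J) (s : ℝ) (x : H) : d.ψ a (s • x) = s * d.ψ a x := by
  rcases a with j | q
  · simp only [Data.ψ, Data.f_smul, mul_div_assoc]
  · simp only [Data.ψ, Data.φ_smul, mul_div_assoc]

lemma Data.abs_ψ_le (a : Wall J) (x : H) : |d.ψ a x| ≤ ‖x‖ := by
  rcases a with j | q
  · simp only [Data.ψ]
    rw [abs_div, abs_of_pos (show (0 : ℝ) < 100 by norm_num), div_le_iff₀ (by norm_num)]
    linarith [d.abs_f_le j x, norm_nonneg x]
  · simp only [Data.ψ]
    have ht := d.t_ge q.1.1 q.1.2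
    rw [abs_div, abs_of_pos (show 0 < d.t q.1.1 q.1.2 by linarith), div_le_iff₀ (by linarith)]
    nlinarith [d.abs_φ_le q.1.1 q.1.2 x, norm_nonneg x]

lemma Data.bdd (x : H) : BddAbove (Set.range fun a => |d.ψ a x|) :=
  ⟨‖x‖, by rintro _ ⟨a, rfl⟩; exact d.abs_ψ_le a x⟩

variable [Nonempty J]

/-- The new norm as a seminorm. -/
noncomputable def Data.semi : Seminorm ℝ H :=
  Seminorm.of (fun x => ⨆ a, |d.ψ a x|)
    (fun x y => ciSup_le fun a => by
      rw [d.ψ_add]
      exact (abs_add_le _ _).trans (add_le_add (le_ciSup (d.bdd x) a) (le_ciSup (d.bdd y) a)))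
    (fun s x => by
      simp only [d.ψ_smul, abs_mul]
      rw [Real.mul_iSup_of_nonneg (norm_nonneg s), Real.norm_eq_abs])

lemma Data.semi_apply (x : H) : d.semi x = ⨆ a, |d.ψ a x| := rfl

lemma Data.semi_le_one_iff (x : H) : d.semi x ≤ 1 ↔ d.InD x := by
  rw [d.semi_apply, ciSup_le_iff (d.bdd x)]
  constructor
  · intro h
    refine ⟨fun j => ?_, fun i p hi => ?_⟩
    · have := h (Sum.inl j)
      simp only [Data.ψ] at this
      rwa [abs_div, abs_of_pos (show (0 : ℝ) < 100 by norm_num), div_le_one (by norm_num)] at this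
    · have := h (Sum.inr ⟨(i, p), hi⟩)
      simp only [Data.ψ] at this
      have ht := d.t_ge i p
      rwa [abs_div, abs_of_pos (show 0 < d.t i p by linarith), div_le_one (by linarith)] at this
  · rintro ⟨h1, h2⟩ a
    rcases a with j | ⟨⟨i, p⟩, hi⟩
    · simp only [Data.ψ]
      rw [abs_div, abs_of_pos (show (0 : ℝ) < 100 by norm_num), div_le_one (by norm_num)]
      exact h1 j
    · simp only [Data.ψ]
      have ht := d.t_ge i p
      rw [abs_div, abs_of_pos (show 0 < d.t i p by linarith), div_le_one (by linarith)]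
      exact h2 i p hi

/-- The new norm is equivalent to the Hilbert norm. -/
noncomputable def Data.eqNorm : EqNorm H where
  p := d.semi
  C := 1000
  lower x := by
    have h : ∀ j, d.f j x ≤ 100 * d.semi x := by
      intro j
      have := le_ciSup (d.bdd x) (Sum.inl j)
      rw [← d.semi_apply] at this
      simp only [Data.ψ] at this
      have := (le_abs_self _).trans this
      linarith
    have := d.norm_le_of_f_le h
    linarith
  upper x := by
    have : d.semi x ≤ ‖x‖ := by
      rw [d.semi_apply]; exact ciSup_le fun a => d.abs_ψ_le a x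
    linarith [norm_nonneg x]

/-- The point-finite covering by balls of the renormed space. -/
theorem Data.covering [WellFoundedLT J] :
    ∃ 𝓑 : Set (Set (Renorm d.eqNorm)),
      (∀ B ∈ 𝓑, ∃ (x : Renorm d.eqNorm) (r : ℝ), 0 < r ∧ B = Metric.closedBall x r) ∧
      ⋃₀ 𝓑 = Set.univ ∧ ∀ y, {B ∈ 𝓑 | y ∈ B}.Finite := by
  let E := Renorm.equiv d.eqNorm
  let ball : ℤ × (J × Lv) → Set (Renorm d.eqNorm) := fun q =>
    Metric.closedBall (E.symm (((2 : ℝ) ^ q.1) • d.c q.2)) ((2 : ℝ) ^ q.1)
  have hball : ∀ q y, y ∈ ball q ↔ d.InD (((2 : ℝ) ^ q.1)⁻¹ • E y - d.c q.2) := by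
    intro q y
    have hpos : (0 : ℝ) < 2 ^ q.1 := by positivity
    rw [← d.semi_le_one_iff]
    simp only [ball, mem_closedBall_iff_norm]
    rw [Renorm.norm_eq, map_sub]
    change d.semi (E y - E (E.symm _)) ≤ _ ↔ _
    rw [ContinuousLinearEquiv.apply_symm_apply]
    have : E y - ((2 : ℝ) ^ q.1) • d.c q.2
        = ((2 : ℝ) ^ q.1) • (((2 : ℝ) ^ q.1)⁻¹ • E y - d.c q.2) := by
      rw [smul_sub, smul_smul, mul_inv_cancel₀ hpos.ne', one_smul]
    rw [this, map_smul_eq_mul, Real.norm_eq_abs, abs_of_pos hpos]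
    constructor
    · intro h; nlinarith
    · intro h; nlinarith
  refine ⟨insert (Metric.closedBall 0 1) (Set.range ball), ?_, ?_, fun y => ?_⟩
  · rintro B (rfl | ⟨q, rfl⟩)
    · exact ⟨0, 1, one_pos, rfl⟩
    · exact ⟨_, _, by positivity, rfl⟩
  · refine Set.eq_univ_of_forall fun y => ?_
    rcases eq_or_ne y 0 with rfl | hy
    · exact ⟨_, Set.mem_insert _ _, Metric.mem_closedBall_self zero_le_one⟩
    · have hy' : E y ≠ 0 := fun h => hy (E.map_eq_zero_iff.1 h)
      obtain ⟨n, p, h⟩ := d.cover hy'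
      exact ⟨ball (n, p), Set.mem_insert_of_mem _ ⟨_, rfl⟩, (hball (n, p) y).2 h⟩
  · refine (((d.finite_all (E y)).image ball).insert (Metric.closedBall 0 1)).subset ?_
    rintro B ⟨rfl | ⟨q, rfl⟩, hB⟩
    · exact Set.mem_insert _ _
    · exact Set.mem_insert_of_mem _ ⟨q, (hball q y).1 hB, rfl⟩

end NewNorm

section Exists

variable {H : Type*} [NormedAddCommGroup H] [InnerProductSpace ℝ H]

/-- Rational combinations of basis vectors. -/
noncomputable def ratComb {Γ : Type*} (b : Γ → H) (l : List (Γ × ℚ)) : H :=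
  (l.map fun a => (a.2 : ℝ) • b a.1).sum

lemma dense_ratComb {Γ : Type*} (b : HilbertBasis Γ ℝ H) (x : H) :
    x ∈ closure (Set.range (ratComb b)) := by
  have hadd : ∀ u ∈ closure (Set.range (ratComb b)), ∀ v ∈ closure (Set.range (ratComb b)),
      u + v ∈ closure (Set.range (ratComb b)) := by
    intro u hu v hv
    refine map_mem_closure₂ continuous_add hu hv ?_
    rintro _ ⟨l₁, rfl⟩ _ ⟨l₂, rfl⟩
    exact ⟨l₁ ++ l₂, by simp [ratComb]⟩
  have hspan : ∀ v ∈ Submodule.span ℝ (Set.range b), ∀ r : ℝ,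
      r • v ∈ closure (Set.range (ratComb b)) := by
    intro v hv
    induction hv using Submodule.span_induction with
    | mem v hv =>
      obtain ⟨γ, rfl⟩ := hv
      intro r
      have hr : r ∈ closure (Set.range ((↑) : ℚ → ℝ)) := Rat.denseRange_cast r
      refine map_mem_closure (f := fun s : ℝ => s • b γ) (by fun_prop) hr ?_
      rintro _ ⟨a, rfl⟩
      exact ⟨[(γ, a)], by simp [ratComb]⟩
    | zero =>
      intro r
      exact subset_closure ⟨[], by simp [ratComb]⟩
    | add u v _ _ hu hv =>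
      intro r
      rw [smul_add]
      exact hadd _ (hu r) _ (hv r)
    | smul a v _ hv =>
      intro r
      rw [smul_smul]
      exact hv _
  have hx : x ∈ (Submodule.span ℝ (Set.range b)).topologicalClosure := by
    rw [b.dense_span]; trivial
  have : closure (Submodule.span ℝ (Set.range b) : Set H) ⊆ closure (Set.range (ratComb b)) :=
    closure_minimal (fun v hv => by simpa using hspan v hv 1) isClosed_closure
  exact this hx

open Cardinal in
lemma exists_embedding (Γ : Type u) [Infinite Γ] :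
    Nonempty ((List (Γ × ℚ) × ℕ) ⊕ ((List (Γ × ℚ) × ℕ) × Lv) ↪ Γ) := by
  have hΓ : ℵ₀ ≤ #Γ := aleph0_le_mk Γ
  have h1 : #(Γ × ℚ) = #Γ := by
    rw [mk_prod, lift_uzero, mk_eq_aleph0 ℚ, lift_aleph0, mul_aleph0_eq hΓ]
  have h2 : #(List (Γ × ℚ) × ℕ) = #Γ := by
    rw [mk_prod, lift_uzero, mk_list_eq_mk, h1, mk_nat, lift_aleph0, mul_aleph0_eq hΓ]
  have h3 : #((List (Γ × ℚ) × ℕ) × Lv) ≤ #Γ := by
    rw [mk_prod, lift_uzero, h2]
    have : lift.{u} #Lv ≤ ℵ₀ := by
      rw [lift_le_aleph0]; exact mk_le_aleph0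
    calc #Γ * lift.{u} #Lv ≤ #Γ * ℵ₀ := mul_le_mul_right this _
      _ = #Γ := mul_aleph0_eq hΓ
  rw [← Cardinal.le_def, mk_sum, lift_id, lift_id, h2]
  exact add_le_of_le hΓ le_rfl h3

lemma exists_data {Γ : Type u} [Infinite Γ] (b : HilbertBasis Γ ℝ H) :
    Nonempty (Data H (List (Γ × ℚ) × ℕ)) := by
  classical
  obtain ⟨ι⟩ := exists_embedding Γ
  refine ⟨{ y := fun j => if ‖ratComb b j.1‖ ≤ 1 then ratComb b j.1 else 0
            w := fun j => b (ι (Sum.inl j))
            e := fun p => b (ι (Sum.inr p))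
            hy := fun j => ?_
            on := ?_
            dense := fun x hx ε hε => ?_ }⟩
  · split_ifs with h
    · exact h
    · simp
  · convert b.orthonormal.comp ι ι.injective using 1
    ext a
    rcases a with j | p <;> rfl
  · set δ := min (ε / 2) 1 with hδ
    have hδpos : 0 < δ := lt_min (by linarith) one_pos
    have hδ1 : δ ≤ 1 := min_le_right _ _
    have hδ2 : δ ≤ ε / 2 := min_le_left _ _
    obtain ⟨_, ⟨l, rfl⟩, hl⟩ :=
      Metric.mem_closure_iff.1 (dense_ratComb b ((1 - δ) • x)) δ hδpos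
    rw [dist_comm, dist_eq_norm] at hl
    have hn : ‖(1 - δ) • x‖ = 1 - δ := by
      rw [norm_smul, hx, Real.norm_eq_abs, abs_of_nonneg (by linarith), mul_one]
    have h1 : ‖ratComb b l‖ ≤ 1 := by
      have := norm_add_le (ratComb b l - (1 - δ) • x) ((1 - δ) • x)
      rw [sub_add_cancel, hn] at this
      linarith
    have h2 : ‖ratComb b l - x‖ < ε := by
      have h3 : ratComb b l - x = (ratComb b l - (1 - δ) • x) + (-δ) • x := by
        rw [sub_smul, one_smul, neg_smul]; abel
      have h4 : ‖(-δ) • x‖ = δ := by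
        rw [norm_smul, hx, Real.norm_eq_abs, abs_neg, abs_of_pos hδpos, mul_one]
      have := norm_add_le (ratComb b l - (1 - δ) • x) ((-δ) • x)
      rw [← h3, h4] at this
      linarith
    refine Set.infinite_of_injective_forall_mem (f := fun n : ℕ => (l, n))
      (fun a a' h => by simpa using h) fun n => ?_
    simp only [Set.mem_ofPred_eq, if_pos h1]
    exact h2

end Exists

/-- Main theorem. -/
theorem main (Γ : Type u) [Infinite Γ] :
    ∃ (X : Type u) (_ : NormedAddCommGroup X) (_ : NormedSpace ℝ X),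
      CompleteSpace X ∧ ¬ FiniteDimensional ℝ X ∧
      Function.Surjective (NormedSpace.inclusionInDoubleDual ℝ X) ∧
      Nonempty (X ≃L[ℝ] lp (fun _ : Γ => ℝ) 2) ∧
      ∃ 𝓑 : Set (Set X),
        (∀ B ∈ 𝓑, ∃ (x : X) (r : ℝ), 0 < r ∧ B = Metric.closedBall x r) ∧
        ⋃₀ 𝓑 = Set.univ ∧ ∀ y : X, {B ∈ 𝓑 | y ∈ B}.Finite := by
  let b : HilbertBasis Γ ℝ (lp (fun _ : Γ => ℝ) 2) := default
  obtain ⟨d⟩ := exists_data b
  obtain ⟨_, _⟩ := exists_wellFoundedLT (α := List (Γ × ℚ) × ℕ)
  let E := Renorm.equiv d.eqNorm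
  refine ⟨Renorm d.eqNorm, inferInstance, inferInstance, ?_, ?_, reflexive_of_equiv E, ⟨E⟩,
    d.covering⟩
  · exact (completeSpace_congr (e := E.toLinearEquiv.toEquiv) E.isUniformEmbedding).2
      inferInstance
  · intro h
    have : FiniteDimensional ℝ (lp (fun _ : Γ => ℝ) 2) := E.toLinearEquiv.finiteDimensional
    have := b.orthonormal.linearIndependent.finite
    exact not_finite Γ

end Pool.Agent.P.MP_73700b_an.Cover
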