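import Mathlib

/-!
Weak limits along an ultrafilter and an adaptive enumeration of rational combinations.
-/

namespace Pool.Agent.P.MP_73700b_an.Reg

open Filter Topology

section Weak

variable {X : Type*} [NormedAddCommGroup X] [NormedSpace ℝ X]

lemma exists_lim_of_compact {Y : Type*} [TopologicalSpace Y] (U : Ultrafilter ℕ) (u : ℕ → Y)
    {K : Set Y} (hK : IsCompact K) (hu : ∀ᶠ n in (U : Filter ℕ), u n ∈ K) :
    ∃ c ∈ K, Tendsto u U (𝓝 c) := by
  obtain ⟨c, hc, h⟩ := hK.ultrafilter_le_nhds' (U.map u) hu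
  exact ⟨c, hc, h⟩

lemma exists_wstar_lim (U : Ultrafilter ℕ) (q : ℕ → X →L[ℝ] ℝ) (M : ℝ) (hq : ∀ n, ‖q n‖ ≤ M) :
    ∃ p : X →L[ℝ] ℝ, ∀ v, Tendsto (fun n => q n v) U (𝓝 (p v)) := by
  have h1 : ∀ v : X, ∃ c ∈ Set.Icc (-(M * ‖v‖)) (M * ‖v‖), Tendsto (fun n => q n v) U (𝓝 c) := by
    intro v
    refine exists_lim_of_compact U _ isCompact_Icc (Eventually.of_forall fun n => ?_)
    have h := (q n).le_opNorm v
    have h2 : ‖q n‖ * ‖v‖ ≤ M * ‖v‖ := mul_le_mul_of_nonneg_right (hq n) (norm_nonneg v)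
    rw [Real.norm_eq_abs] at h
    exact abs_le.1 (h.trans h2)
  choose c hc hlim using h1
  let p : X →ₗ[ℝ] ℝ :=
    { toFun := c
      map_add' := fun v w => by
        refine tendsto_nhds_unique (hlim (v + w)) ?_
        simpa only [map_add] using (hlim v).add (hlim w)
      map_smul' := fun t v => by
        refine tendsto_nhds_unique (hlim (t • v)) ?_
        simpa only [map_smul, smul_eq_mul, RingHom.id_apply] using (hlim v).const_mul t }
  refine ⟨p.mkContinuous M fun v => ?_, hlim⟩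
  rw [Real.norm_eq_abs]
  exact abs_le.2 (hc v)

lemma exists_weak_lim (hrefl : Function.Surjective (NormedSpace.inclusionInDoubleDual ℝ X))
    (U : Ultrafilter ℕ) (a : ℕ → X) (M : ℝ) (ha : ∀ n, ‖a n‖ ≤ M) :
    ∃ b : X, ∀ f : X →L[ℝ] ℝ, Tendsto (fun n => f (a n)) U (𝓝 (f b)) := by
  obtain ⟨p, hp⟩ := exists_wstar_lim U (fun n => NormedSpace.inclusionInDoubleDual ℝ X (a n)) M
    (fun n => (NormedSpace.double_dual_bound ℝ X (a n)).trans (ha n))
  obtain ⟨b, rfl⟩ := hrefl p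
  exact ⟨b, fun f => hp f⟩

lemma mem_of_weak_lim (U : Ultrafilter ℕ) (a : ℕ → X) (b : X)
    (h : ∀ f : X →L[ℝ] ℝ, Tendsto (fun n => f (a n)) U (𝓝 (f b))) {K : Set X}
    (hc : Convex ℝ K) (hK : IsClosed K) (ha : ∀ᶠ n in (U : Filter ℕ), a n ∈ K) : b ∈ K := by
  by_contra hb
  obtain ⟨f, u, h1, h2⟩ := geometric_hahn_banach_point_closed hc hK hb
  have : u ≤ f b := ge_of_tendsto (h f) (ha.mono fun n hn => (h2 _ hn).le)
  linarith

lemma weak_of_wstar (hrefl : Function.Surjective (NormedSpace.inclusionInDoubleDual ℝ X))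
    (U : Ultrafilter ℕ) (q : ℕ → X →L[ℝ] ℝ) (p : X →L[ℝ] ℝ)
    (h : ∀ v, Tendsto (fun n => q n v) U (𝓝 (p v))) (F : (X →L[ℝ] ℝ) →L[ℝ] ℝ) :
    Tendsto (fun n => F (q n)) U (𝓝 (F p)) := by
  obtain ⟨v, rfl⟩ := hrefl F
  exact h v

/-- An affine function that is nonnegative on a ball. -/
lemma aff_bound (f : X →L[ℝ] ℝ) {c r : ℝ} (hr : 0 < r)
    (h : ∀ v, ‖v‖ ≤ r → 0 ≤ c + f v) : r * ‖f‖ ≤ c := by
  have h0 : 0 ≤ c := by simpa using h 0 (by simpa using hr.le)
  have : ‖f‖ ≤ c / r := by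
    refine ContinuousLinearMap.opNorm_le_of_unit_norm (div_nonneg h0 hr.le) fun x hx => ?_
    have h1 := h (r • x) (by rw [norm_smul, hx, Real.norm_eq_abs, abs_of_pos hr]; simp)
    have h2 := h (-(r • x)) (by rw [norm_neg, norm_smul, hx, Real.norm_eq_abs, abs_of_pos hr]; simp)
    rw [map_neg, map_smul, smul_eq_mul] at h2
    rw [map_smul, smul_eq_mul] at h1
    rw [Real.norm_eq_abs, le_div_iff₀ hr]
    rcases le_total 0 (f x) with h3 | h3
    · rw [abs_of_nonneg h3]; linarith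
    · rw [abs_of_nonpos h3]; linarith
  rwa [le_div_iff₀ hr, mul_comm] at this

end Weak

section Comb

variable {Y : Type*} [NormedAddCommGroup Y] [NormedSpace ℝ Y]

/-- A rational combination of the terms of a sequence. -/
noncomputable def comb (y : ℕ → Y) (l : List (ℕ × ℚ)) : Y :=
  (l.map fun p => (p.2 : ℝ) • y p.1).sum

lemma comb_nil (y : ℕ → Y) : comb y [] = 0 := rfl

lemma comb_cons (y : ℕ → Y) (p : ℕ × ℚ) (l : List (ℕ × ℚ)) :
    comb y (p :: l) = (p.2 : ℝ) • y p.1 + comb y l := by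
  simp [comb]

lemma comb_append (y : ℕ → Y) (l l' : List (ℕ × ℚ)) :
    comb y (l ++ l') = comb y l + comb y l' := by
  simp [comb]

lemma comb_congr (y y' : ℕ → Y) (l : List (ℕ × ℚ)) (h : ∀ p ∈ l, y p.1 = y' p.1) :
    comb y l = comb y' l := by
  induction l with
  | nil => rfl
  | cons p l ih =>
    rw [comb_cons, comb_cons, h p (by simp), ih fun p hp => h p (by simp [hp])]

lemma map_comb {Z : Type*} [NormedAddCommGroup Z] [NormedSpace ℝ Z] (f : Y →L[ℝ] Z)
    (y : ℕ → Y) (l : List (ℕ × ℚ)) : f (comb y l) = comb (fun n => f (y n)) l := by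
  induction l with
  | nil => simp [comb_nil]
  | cons p l ih => rw [comb_cons, comb_cons, map_add, map_smul, ih]

lemma comb_smul (y : ℕ → Y) (l : List (ℕ × ℚ)) (c : ℚ) :
    comb y (l.map fun p => (p.1, c * p.2)) = (c : ℝ) • comb y l := by
  induction l with
  | nil => simp [comb_nil]
  | cons p l ih =>
    rw [List.map_cons, comb_cons, comb_cons, ih, smul_add, smul_smul]
    push_cast
    rfl

lemma span_le_closure (y : ℕ → Y) (p : Y) (hp : p ∈ Submodule.span ℝ (Set.range y)) :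
    p ∈ closure (Set.range (comb y)) := by
  induction hp using Submodule.span_induction with
  | mem x hx =>
    obtain ⟨n, rfl⟩ := hx
    exact subset_closure ⟨[(n, 1)], by simp [comb]⟩
  | zero => exact subset_closure ⟨[], rfl⟩
  | add a b _ _ ha hb =>
    refine map_mem_closure₂ continuous_add ha hb ?_
    rintro _ ⟨l, rfl⟩ _ ⟨l', rfl⟩
    exact ⟨l ++ l', comb_append y l l'⟩
  | smul t a _ ha =>
    have ht : t ∈ closure (Set.range ((↑) : ℚ → ℝ)) := Rat.denseRange_cast t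
    refine map_mem_closure₂ (f := fun (t : ℝ) (a : Y) => t • a) continuous_smul ht ha ?_
    rintro _ ⟨c, rfl⟩ _ ⟨l, rfl⟩
    exact ⟨_, comb_smul y l c⟩

lemma approx_of_weak_lim (U : Ultrafilter ℕ) (y : ℕ → Y) (p : Y)
    (h : ∀ f : Y →L[ℝ] ℝ, Tendsto (fun n => f (y n)) U (𝓝 (f p))) {ε : ℝ} (hε : 0 < ε) :
    ∃ l, ‖p - comb y l‖ < ε := by
  have h1 : p ∈ closure (Submodule.span ℝ (Set.range y) : Set Y) :=
    mem_of_weak_lim U y p h (Submodule.convex _).closure isClosed_closure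
      (Eventually.of_forall fun n => subset_closure (Submodule.subset_span ⟨n, rfl⟩))
  have h2 : p ∈ closure (Set.range (comb y)) :=
    closure_minimal (fun x hx => span_le_closure y x hx) isClosed_closure h1
  obtain ⟨_, ⟨l, rfl⟩, hl⟩ := Metric.mem_closure_iff.1 h2 ε hε
  exact ⟨l, by rwa [dist_eq_norm] at hl⟩

lemma adaptive {σ : Type*} (s0 : σ) (R : ℕ → σ → Y → σ → Y → Prop)
    (h : ∀ n s d, ∃ s' y, R n s d s' y) :
    ∃ (s : ℕ → σ) (d y : ℕ → Y), (∀ n, R n (s n) (d n) (s (n + 1)) (y n)) ∧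
      ∀ l N, ∃ n, N ≤ n ∧ d n = comb y l := by
  classical
  choose nx out hR using h
  obtain ⟨e, he⟩ := exists_surjective_nat (List (ℕ × ℚ))
  let E : ℕ → List (ℕ × ℚ) := fun n => e (Nat.unpair n).1
  let H : ℕ → σ × (ℕ → Y) := fun n => Nat.rec (s0, fun _ => 0)
    (fun n p => (nx n p.1 (comb p.2 (E n)), Function.update p.2 n (out n p.1 (comb p.2 (E n))))) n
  have hH : ∀ n, H (n + 1) = (nx n (H n).1 (comb (H n).2 (E n)),
      Function.update (H n).2 n (out n (H n).1 (comb (H n).2 (E n)))) := fun n => rfl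
  let y : ℕ → Y := fun n => out n (H n).1 (comb (H n).2 (E n))
  have hy : ∀ m i, i < m → (H m).2 i = y i := by
    intro m
    induction m with
    | zero => intro i hi; omega
    | succ m ih =>
      intro i hi
      rw [hH]
      by_cases him : i = m
      · subst him; simp [y]
      · simp only [Function.update_of_ne him]
        exact ih i (by omega)
  refine ⟨fun n => (H n).1, fun n => comb (H n).2 (E n), y, fun n => hR n _ _, fun l N => ?_⟩
  obtain ⟨k, rfl⟩ := he l
  obtain ⟨B, hB⟩ : ∃ B, ∀ p ∈ e k, p.1 < B := by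
    generalize e k = l
    induction l with
    | nil => exact ⟨0, by simp⟩
    | cons p l ih =>
      obtain ⟨B, hB⟩ := ih
      refine ⟨max B (p.1 + 1), fun p' hp' => ?_⟩
      rcases List.mem_cons.1 hp' with rfl | hp'
      · omega
      · have := hB p' hp'; omega
  refine ⟨Nat.pair k (max N B), (le_max_left N B).trans (Nat.right_le_pair _ _), ?_⟩
  have hE : E (Nat.pair k (max N B)) = e k := by simp [E]
  simp only [hE]
  refine comb_congr _ _ _ fun p hp => hy _ _ ?_
  exact (hB p hp).trans_le ((le_max_right N B).trans (Nat.right_le_pair _ _))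

end Comb

end Pool.Agent.P.MP_73700b_an.Reg
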