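import Pool.Agent.P.MP_73700b_an.RegA

/-!
A game on the boundary of a bounded convex body given by a bounded family of functionals.
-/

namespace Pool.Agent.P.MP_73700b_an.Reg

open Filter Topology

variable {L : Type*} [NormedAddCommGroup L] [NormedSpace ℝ L] {J : Type*}

/-- Boundary points of the body where all functionals are at most one. -/
def Bd (q : J → L →L[ℝ] ℝ) (x : L) : Prop :=
  (∀ j, q j x ≤ 1) ∧ ∀ ε : ℝ, 0 < ε → ∃ j, 1 - ε < q j x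

/-- A window: a boundary point and a positive radius. -/
def Ok (q : J → L →L[ℝ] ℝ) (w : L × ℝ) : Prop := Bd q w.1 ∧ 0 < w.2

/-- A window well inside another one. -/
def Sub (w' w : L × ℝ) : Prop := ‖w'.1 - w.1‖ + 2 * w'.2 ≤ w.2

/-- The functional reaches the value one in the window. -/
def Sees (q : J → L →L[ℝ] ℝ) (w : L × ℝ) (j : J) : Prop := ∃ x, ‖x - w.1‖ ≤ w.2 ∧ 1 ≤ q j x

lemma Sub.trans {w'' w' w : L × ℝ} (h1 : Sub w'' w') (h2 : Sub w' w) (h : 0 < w'.2) :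
    Sub w'' w := by
  unfold Sub at *
  have := norm_sub_le_norm_sub_add_norm_sub w''.1 w'.1 w.1
  linarith

lemma Sub.mem {w' w : L × ℝ} (h1 : Sub w' w) (h : 0 < w'.2) {x : L} (hx : ‖x - w'.1‖ ≤ w'.2) :
    ‖x - w.1‖ ≤ w.2 := by
  unfold Sub at *
  have := norm_sub_le_norm_sub_add_norm_sub x w'.1 w.1
  linarith

lemma Sees.mono {q : J → L →L[ℝ] ℝ} {w' w : L × ℝ} {j : J} (hs : Sees q w' j) (h1 : Sub w' w)
    (h : 0 < w'.2) : Sees q w j := by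
  obtain ⟨x, hx, hq⟩ := hs
  exact ⟨x, h1.mem h hx, hq⟩

lemma sub_self_of_le (x : L) {t T : ℝ} (h : 2 * t ≤ T) : Sub (x, t) (x, T) := by
  simpa [Sub] using h

/-- The data of the game. -/
structure Body (q : J → L →L[ℝ] ℝ) (M K : ℝ) : Prop where
  M_pos : 0 < M
  K_pos : 0 < K
  hM : ∀ j, ‖q j‖ ≤ M
  hK : ∀ x, (∀ j, q j x ≤ 1) → ‖x‖ ≤ K

namespace Body

variable {q : J → L →L[ℝ] ℝ} {M K : ℝ} (B : Body q M K)
include B

lemma abs_le (j : J) (x : L) : |q j x| ≤ M * ‖x‖ := by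
  have h := (q j).le_opNorm x
  rw [Real.norm_eq_abs] at h
  exact h.trans (mul_le_mul_of_nonneg_right (B.hM j) (norm_nonneg x))

lemma le_of_norm (j : J) {x : L} {t : ℝ} (h : ‖x‖ ≤ t) : q j x ≤ M * t ∧ -(M * t) ≤ q j x := by
  have h1 := _root_.abs_le.1 ((B.abs_le j x).trans (mul_le_mul_of_nonneg_left h B.M_pos.le))
  exact ⟨h1.2, h1.1⟩

lemma gauge (x : L) (hx : ∃ j, 0 < q j x) :
    ∃ μ : ℝ, 0 < μ ∧ (∀ j, q j x ≤ μ) ∧ (∀ ε : ℝ, 0 < ε → ∃ j, μ - ε < q j x) ∧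
      Bd q (μ⁻¹ • x) := by
  obtain ⟨j0, hj0⟩ := hx
  have : Nonempty J := ⟨j0⟩
  have hb : BddAbove (Set.range fun j => q j x) :=
    ⟨M * ‖x‖, by rintro _ ⟨j, rfl⟩; exact (B.le_of_norm j le_rfl).1⟩
  have h1 : ∀ j, q j x ≤ ⨆ j, q j x := fun j => le_ciSup hb j
  have h2 : ∀ ε : ℝ, 0 < ε → ∃ j, (⨆ j, q j x) - ε < q j x := fun ε hε =>
    exists_lt_of_lt_ciSup (by linarith)
  have hμ : 0 < ⨆ j, q j x := hj0.trans_le (h1 j0)
  generalize (⨆ j, q j x) = μ at h1 h2 hμ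
  refine ⟨μ, hμ, h1, h2, fun j => ?_, fun ε hε => ?_⟩
  · rw [map_smul, smul_eq_mul, inv_mul_le_iff₀ hμ, mul_one]; exact h1 j
  · obtain ⟨j, hj⟩ := h2 (μ * ε) (by positivity)
    refine ⟨j, ?_⟩
    rw [map_smul, smul_eq_mul, lt_inv_mul_iff₀ hμ]
    linarith

lemma exists_bd (v : L) (hv : v ≠ 0) : ∃ x, Bd q x := by
  have hv' : 0 < ‖v‖ := norm_pos_iff.2 hv
  have hK := B.K_pos
  have : ∃ j, 0 < q j (((K + 1) / ‖v‖) • v) := by
    by_contra h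
    push Not at h
    have h2 := B.hK _ fun j => (h j).trans zero_le_one
    rw [norm_smul, Real.norm_eq_abs, abs_of_pos (by positivity), div_mul_cancel₀ _ hv'.ne'] at h2
    linarith
  obtain ⟨μ, -, -, -, h⟩ := B.gauge _ this
  exact ⟨_, h⟩

lemma radial {x : L} (hx : Bd q x) (x2 : L) {t : ℝ} (ht : ‖x2 - x‖ ≤ t) (hMt : M * t ≤ 1 / 2) :
    ∃ μ : ℝ, 0 < μ ∧ μ ≤ 2 ∧ (∀ j, q j x2 ≤ μ) ∧ Bd q (μ⁻¹ • x2) ∧
      ‖μ⁻¹ • x2 - x‖ ≤ (2 + 2 * M * K) * t := by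
  have ht0 : 0 ≤ t := (norm_nonneg _).trans ht
  have hd : ∀ j, q j x2 - q j x ≤ M * t ∧ -(M * t) ≤ q j x2 - q j x := fun j => by
    rw [← map_sub]; exact B.le_of_norm j ht
  obtain ⟨j0, hj0⟩ := hx.2 (1 / 4) (by norm_num)
  obtain ⟨μ, hμ, h1, h2, h3⟩ := B.gauge x2 ⟨j0, by linarith [(hd j0).2]⟩
  have hup : μ ≤ 1 + M * t := by
    refine le_of_forall_pos_le_add fun ε hε => ?_
    obtain ⟨j, hj⟩ := h2 ε hε
    linarith [(hd j).1, hx.1 j]
  have hlo : 1 - M * t ≤ μ := by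
    refine le_of_forall_pos_le_add fun ε hε => ?_
    obtain ⟨j, hj⟩ := hx.2 ε hε
    linarith [(hd j).2, h1 j]
  refine ⟨μ, hμ, by linarith, h1, h3, ?_⟩
  have hinv : μ⁻¹ ≤ 2 := by
    rw [inv_le_comm₀ hμ (by norm_num)]; linarith
  have hinv0 : 0 < μ⁻¹ := inv_pos.2 hμ
  have e : μ⁻¹ • x2 - x = μ⁻¹ • ((x2 - x) + (1 - μ) • x) := by
    rw [smul_add, smul_sub, smul_smul, mul_sub, inv_mul_cancel₀ hμ.ne', mul_one, sub_smul,
      one_smul]
    abel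
  have hxK := B.hK x hx.1
  have habs : |1 - μ| ≤ M * t := _root_.abs_le.2 ⟨by linarith, by linarith⟩
  have h4 : ‖(x2 - x) + (1 - μ) • x‖ ≤ t + M * t * K := by
    refine (norm_add_le _ _).trans (add_le_add ht ?_)
    rw [norm_smul, Real.norm_eq_abs]
    exact mul_le_mul habs hxK (norm_nonneg _) (mul_nonneg B.M_pos.le ht0)
  rw [e, norm_smul, Real.norm_eq_abs, abs_of_pos hinv0]
  calc μ⁻¹ * ‖(x2 - x) + (1 - μ) • x‖ ≤ 2 * (t + M * t * K) :=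
        mul_le_mul hinv h4 (norm_nonneg _) (by norm_num)
    _ = (2 + 2 * M * K) * t := by ring

/-- Every window contains a point outside the body. -/
lemma exists_out {w : L × ℝ} (hw : Ok q w) : ∃ x j, ‖x - w.1‖ ≤ w.2 ∧ 1 < q j x := by
  obtain ⟨x, t⟩ := w
  obtain ⟨hx, ht⟩ := hw
  simp only at hx ht ⊢
  have hK := B.K_pos
  have hθ : 0 < t / K := by positivity
  obtain ⟨j, hj⟩ := hx.2 (t / K / (1 + t / K)) (by positivity)
  refine ⟨(1 + t / K) • x, j, ?_, ?_⟩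
  · have : (1 + t / K) • x - x = (t / K) • x := by rw [add_smul, one_smul]; abel
    rw [this, norm_smul, Real.norm_eq_abs, abs_of_pos hθ]
    calc t / K * ‖x‖ ≤ t / K * K := mul_le_mul_of_nonneg_left (B.hK x hx.1) hθ.le
      _ = t := by field_simp
  · rw [map_smul, smul_eq_mul]
    generalize t / K = θ at hθ hj
    have h1 : 0 < 1 + θ := by linarith
    have h2 : (1 + θ) * (1 - θ / (1 + θ)) = 1 := by field_simp; ring
    calc (1 : ℝ) = (1 + θ) * (1 - θ / (1 + θ)) := h2.symm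
      _ < (1 + θ) * q j x := mul_lt_mul_of_pos_left hj h1

lemma exists_sees {w : L × ℝ} (hw : Ok q w) : ∃ j, Sees q w j := by
  obtain ⟨x, j, h1, h2⟩ := B.exists_out hw
  exact ⟨j, x, h1, h2.le⟩

/-- The dual step: in a suitable subwindow all visible functionals have nearly the same distance
from `d`, witnessed by one vector. -/
lemma stepA {w : L × ℝ} (hw : Ok q w) (d : L →L[ℝ] ℝ) {η : ℝ} (hη : 0 < η) :
    ∃ w', Ok q w' ∧ Sub w' w ∧ ∃ (v : L) (s : ℝ), ‖v‖ ≤ 1 ∧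
      ∀ j, Sees q w' j → s - η ≤ (q j - d) v ∧ ‖q j - d‖ ≤ s + η := by
  have hM := B.M_pos
  have hK := B.K_pos
  let A : Set ℝ := {s | ∃ w', Ok q w' ∧ Sub w' w ∧ ∀ j, Sees q w' j → ‖q j - d‖ ≤ s}
  have hne : A.Nonempty := ⟨M + ‖d‖, (w.1, w.2 / 2), ⟨hw.1, half_pos hw.2⟩,
    sub_self_of_le _ (by linarith), fun j _ => (norm_sub_le _ _).trans (by linarith [B.hM j])⟩
  have hbd : BddBelow A := ⟨0, by
    rintro s ⟨w', h1, -, h3⟩
    obtain ⟨j, hj⟩ := B.exists_sees h1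
    exact (norm_nonneg _).trans (h3 j hj)⟩
  obtain ⟨s', ⟨⟨x0, T⟩, hw1, hsub1, hs'⟩, hlt⟩ :=
    exists_lt_of_csInf_lt hne (show sInf A < sInf A + η / 2 by linarith)
  have hlow : ∀ w', Ok q w' → Sub w' w → ∃ j, Sees q w' j ∧ sInf A - η / 2 < ‖q j - d‖ := by
    intro w' h1 h2
    by_contra h
    push Not at h
    have : sInf A ≤ sInf A - η / 2 := csInf_le hbd ⟨w', h1, h2, h⟩
    linarith
  generalize sInf A = s at hlt hlow
  have hT : 0 < T := hw1.2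
  have hx0 : Bd q x0 := hw1.1
  have hc : 0 < 2 + 2 * M * K := by positivity
  obtain ⟨t, ht, ht1, ht2⟩ : ∃ t : ℝ, 0 < t ∧ M * t ≤ 1 / 2 ∧ (2 + 2 * M * K) * t ≤ T / 2 := by
    refine ⟨min (1 / 2 / M) (T / 2 / (2 + 2 * M * K)), by positivity, ?_, ?_⟩
    · rw [mul_comm, ← le_div_iff₀ hM]; exact min_le_left _ _
    · rw [mul_comm, ← le_div_iff₀ hc]; exact min_le_right _ _
  obtain ⟨τ, hτ, hτ1, hτ2⟩ : ∃ τ : ℝ, 0 < τ ∧ τ ≤ T / 4 ∧ 3 * M * τ ≤ t * (η / 2) := by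
    refine ⟨min (T / 4) (t * (η / 2) / (3 * M)), by positivity, min_le_left _ _, ?_⟩
    rw [mul_comm, ← le_div_iff₀ (by positivity)]; exact min_le_right _ _
  obtain ⟨j1, ⟨x1, hx1, hq1⟩, hj1⟩ := hlow (x0, τ) ⟨hx0, hτ⟩
    ((sub_self_of_le x0 (by linarith)).trans hsub1 hT)
  obtain ⟨v, hv, hv2⟩ : ∃ v : L, ‖v‖ ≤ 1 ∧ s - η / 2 < (q j1 - d) v := by
    obtain ⟨v, hv, hv2⟩ := (q j1 - d).exists_lt_apply_of_lt_opNorm hj1
    rw [Real.norm_eq_abs, lt_abs] at hv2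
    rcases hv2 with h | h
    · exact ⟨v, hv.le, h⟩
    · exact ⟨-v, by simpa using hv.le, by rwa [map_neg]⟩
  have hx2 : ‖(x0 + t • v) - x0‖ ≤ t := by
    rw [add_sub_cancel_left, norm_smul, Real.norm_eq_abs, abs_of_pos ht]
    nlinarith
  obtain ⟨μ, hμ, hμ2, h1, hbd2, hnear⟩ := B.radial hx0 (x0 + t • v) hx2 ht1
  have hsub2 : Sub (μ⁻¹ • (x0 + t • v), τ) (x0, T) := by
    unfold Sub; simp only; linarith
  refine ⟨(μ⁻¹ • (x0 + t • v), τ), ⟨hbd2, hτ⟩, hsub2.trans hsub1 hT, v, s, hv, fun j hj => ⟨?_, ?_⟩⟩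
  · obtain ⟨x3, hx3, hq3⟩ := hj
    have a1 := (B.le_of_norm j hx3).1
    have a2 := (B.le_of_norm j1 hx1).1
    simp only [map_sub] at a1 a2
    have a3 : q j (x0 + t • v) = μ * q j (μ⁻¹ • (x0 + t • v)) := by
      rw [map_smul (q j) μ⁻¹, smul_eq_mul, ← mul_assoc, mul_inv_cancel₀ hμ.ne', one_mul]
    have a4 : μ * (1 - M * τ) ≤ q j (x0 + t • v) := by
      rw [a3]; exact mul_le_mul_of_nonneg_left (by linarith) hμ.le
    have a5 := h1 j1
    have a6 := hx0.1 j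
    rw [map_add, map_smul, smul_eq_mul] at a4 a5
    have a7 : μ * (M * τ) ≤ 2 * (M * τ) := mul_le_mul_of_nonneg_right hμ2 (by positivity)
    have a8 : t * (-(η / 2)) ≤ t * (q j v - q j1 v) := by nlinarith
    have a9 := le_of_mul_le_mul_left a8 ht
    simp only [sub_apply] at hv2 ⊢
    linarith
  · have := hs' j (hj.mono hsub2 hτ)
    linarith

/-- Avoiding one functional. -/
lemma stepB {w : L × ℝ} (hw : Ok q w) (j : J)
    (h : ∀ w', Ok q w' → ∃ x', Bd q x' ∧ ‖x' - w'.1‖ ≤ w'.2 ∧ q j x' ≠ 1) :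
    ∃ w', Ok q w' ∧ Sub w' w ∧ ¬ Sees q w' j := by
  have hM := B.M_pos
  obtain ⟨x', h1, h2, h3⟩ := h (w.1, w.2 / 2) ⟨hw.1, half_pos hw.2⟩
  have h4 : 0 < 1 - q j x' := sub_pos.2 (lt_of_le_of_ne (h1.1 j) h3)
  have hT := hw.2
  obtain ⟨τ, hτ, hτ1, hτ2⟩ : ∃ τ : ℝ, 0 < τ ∧ τ ≤ w.2 / 4 ∧ 2 * M * τ ≤ 1 - q j x' := by
    refine ⟨min (w.2 / 4) ((1 - q j x') / (2 * M)), by positivity, min_le_left _ _, ?_⟩
    rw [mul_comm, ← le_div_iff₀ (by positivity)]; exact min_le_right _ _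
  refine ⟨(x', τ), ⟨h1, hτ⟩, ?_, ?_⟩
  · unfold Sub; simp only at h2 ⊢; linarith
  · rintro ⟨x, hx, hq⟩
    have a1 := (B.le_of_norm j hx).1
    simp only [map_sub] at a1
    linarith

/-- A flat piece of the boundary. -/
lemma flat {w : L × ℝ} (hw : Ok q w) (j : J)
    (h : ∀ x', Bd q x' → ‖x' - w.1‖ ≤ w.2 → q j x' = 1) :
    q j w.1 = 1 ∧ ∃ ρ : ℝ, 0 < ρ ∧ ∀ v, q j v = 0 → ‖v‖ ≤ ρ → ∀ j', q j' (w.1 + v) ≤ 1 := by
  have hM := B.M_pos
  have hK := B.K_pos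
  have hT := hw.2
  have h0 : q j w.1 = 1 := h _ hw.1 (by simpa using hT.le)
  have hc : 0 < 2 + 2 * M * K := by positivity
  obtain ⟨t, ht, ht1, ht2⟩ : ∃ t : ℝ, 0 < t ∧ M * t ≤ 1 / 2 ∧ (2 + 2 * M * K) * t ≤ w.2 := by
    refine ⟨min (1 / 2 / M) (w.2 / (2 + 2 * M * K)), by positivity, ?_, ?_⟩
    · rw [mul_comm, ← le_div_iff₀ hM]; exact min_le_left _ _
    · rw [mul_comm, ← le_div_iff₀ hc]; exact min_le_right _ _
  refine ⟨h0, t, ht, fun v hv hvt j' => ?_⟩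
  obtain ⟨μ, hμ, -, h1, hbd2, hnear⟩ := B.radial hw.1 (w.1 + v) (by simpa using hvt) ht1
  have h2 := h _ hbd2 (hnear.trans ht2)
  rw [map_smul, map_add, h0, hv, add_zero, smul_eq_mul, mul_one, inv_eq_one] at h2
  rw [← h2]; exact h1 j'

end Body

/-- Nested windows shrink to a point. -/
lemma nested [CompleteSpace L] (w : ℕ → L × ℝ) (hpos : ∀ n, 0 < (w n).2)
    (hsub : ∀ n, Sub (w (n + 1)) (w n)) :
    (∀ n m, n < m → Sub (w m) (w n)) ∧ Tendsto (fun n => (w n).2) atTop (𝓝 0) ∧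
      ∃ y, ∀ n, ‖y - (w n).1‖ ≤ (w n).2 := by
  have h1 : ∀ n m, n < m → Sub (w m) (w n) := by
    intro n m hnm
    induction m, hnm using Nat.le_induction with
    | base => exact hsub n
    | succ m _ ih => exact (hsub m).trans ih (hpos m)
  have h2 : ∀ n, (w n).2 ≤ (w 0).2 * (1 / 2) ^ n := by
    intro n
    induction n with
    | zero => simp
    | succ n ih =>
      have := hsub n
      unfold Sub at this
      have := norm_nonneg ((w (n + 1)).1 - (w n).1)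
      rw [pow_succ]; linarith
  have h3 : Tendsto (fun n => (w n).2) atTop (𝓝 0) := by
    refine squeeze_zero (fun n => (hpos n).le) h2 ?_
    simpa using (tendsto_pow_atTop_nhds_zero_of_lt_one (r := (1 / 2 : ℝ)) (by norm_num)
      (by norm_num)).const_mul (w 0).2
  have h4 : ∀ n m, n ≤ m → ‖(w m).1 - (w n).1‖ ≤ (w n).2 := by
    intro n m hnm
    rcases hnm.eq_or_lt with rfl | hnm
    · simpa using (hpos n).le
    · exact (h1 n m hnm).mem (hpos m) (by simpa using (hpos m).le)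
  have hc : CauchySeq fun n => (w n).1 := by
    refine cauchySeq_of_le_tendsto_0' (fun n => (w n).2) (fun n m hnm => ?_) h3
    rw [dist_comm, dist_eq_norm]; exact h4 n m hnm
  obtain ⟨y, hy⟩ := cauchySeq_tendsto_of_complete hc
  refine ⟨h1, h3, y, fun n => ?_⟩
  exact le_of_tendsto ((hy.sub_const (w n).1).norm) (eventually_atTop.2 ⟨n, fun m hm => h4 n m hm⟩)

end Pool.Agent.P.MP_73700b_an.Reg
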