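import Pool.Agent.P.MP_73700b_an.RegB

/-!
Cells of a family of affine functions: limits of cells that approach a point.
-/

namespace Pool.Agent.P.MP_73700b_an.Reg

open Filter Topology

variable {X : Type*} [NormedAddCommGroup X] [NormedSpace ℝ X] {ι : Type*}

/-- The cell where the affine function with index `i` is the largest. -/
def cell (φ : ι → X →L[ℝ] ℝ) (κ : ι → ℝ) (i : ι) : Set X :=
  {x | ∀ j, φ j x + κ j ≤ φ i x + κ i}

/-- The ball of radius `r` about `a` lies in the cell. -/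
def Inner (φ : ι → X →L[ℝ] ℝ) (κ : ι → ℝ) (r : ℝ) (i : ι) (a : X) : Prop :=
  ∀ h, ‖h‖ ≤ r → a + h ∈ cell φ κ i

variable {φ : ι → X →L[ℝ] ℝ} {κ : ι → ℝ} {r : ℝ}

lemma Inner.gap (hr : 0 < r) {i : ι} {a : X} (h : Inner φ κ r i a) (j : ι) :
    r * ‖φ i - φ j‖ ≤ (φ i a + κ i) - (φ j a + κ j) := by
  refine aff_bound _ hr fun v hv => ?_
  have := h v hv j
  simp only [map_add, sub_apply] at this ⊢
  linarith

lemma Inner.sep (hinj : ∀ i j, φ i = φ j → κ i = κ j → i = j) (hr : 0 < r) {i j : ι} {a b : X}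
    (ha : Inner φ κ r i a) (hb : Inner φ κ r j b) (hij : i ≠ j) : 2 * r ≤ ‖a - b‖ := by
  have h1 := ha.gap hr j
  have h2 := hb.gap hr i
  rw [norm_sub_rev] at h2
  by_cases h : φ i = φ j
  · exfalso
    rw [h] at h1 h2
    simp only [sub_self, norm_zero, mul_zero] at h1 h2
    exact hij (hinj i j h (by linarith))
  · have h3 : 0 < ‖φ i - φ j‖ := norm_pos_iff.2 (sub_ne_zero.2 h)
    have h4 := (φ i - φ j).le_opNorm (a - b)
    have h5 := le_abs_self ((φ i - φ j) (a - b))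
    rw [Real.norm_eq_abs] at h4
    have h6 : (φ i - φ j) (a - b) = φ i a - φ j a - (φ i b - φ j b) := by
      simp only [map_sub, sub_apply]
    have h7 : ‖φ i - φ j‖ * (2 * r) ≤ ‖φ i - φ j‖ * ‖a - b‖ := by linarith
    exact le_of_mul_le_mul_left h7 h3

/-- Two cells close to a point of a third one, in nearly the same direction, have comparable
slopes. -/
lemma ratio (hr : 0 < r) {i j k : ι} {y x a : X} {D : ℝ} (hy : y ∈ cell φ κ i)
    (hx : x ∈ cell φ κ k) (hxy : ‖x - y‖ ≤ r) (ha : Inner φ κ r j a) (haD : ‖a - y‖ ≤ D)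
    {g g' : X →L[ℝ] ℝ} {N N' : ℝ} (hN : 0 < N) (hN' : 0 < N') (hg : φ k - φ i = N • g)
    (hg' : φ j - φ i = N' • g') (hn : ‖g'‖ = 1) (hgg : ‖g - g'‖ * D < r / 2) : N < 2 * N' := by
  by_contra hc
  push Not at hc
  have h1 := ha.gap hr i
  have h2 := ha.gap hr k
  have h3 := hy j
  have h4 := hx j
  rw [hg', norm_smul, hn, Real.norm_eq_abs, abs_of_pos hN', mul_one] at h1
  have e1 : φ j (a - y) - φ i (a - y) = N' * g' (a - y) := by
    rw [← sub_apply, hg']; simp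
  have e2 : φ k (a - y) - φ i (a - y) = N * g (a - y) := by
    rw [← sub_apply, hg]; simp
  have h5 : r ≤ g' (a - y) := by
    refine le_of_mul_le_mul_left (a := N') ?_ hN'
    rw [← e1]; simp only [map_sub]; linarith
  have h6 : |(φ j - φ k) (x - y)| ≤ ‖φ j - φ k‖ * r := by
    have := (φ j - φ k).le_opNorm (x - y)
    rw [Real.norm_eq_abs] at this
    exact this.trans (mul_le_mul_of_nonneg_left hxy (norm_nonneg _))
  have h7 : 0 ≤ φ j (a - y) - φ k (a - y) := by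
    have := (abs_le.1 h6).1
    simp only [map_sub, sub_apply] at this ⊢
    linarith
  have h8 : |(g - g') (a - y)| ≤ ‖g - g'‖ * D := by
    have := (g - g').le_opNorm (a - y)
    rw [Real.norm_eq_abs] at this
    exact this.trans (mul_le_mul_of_nonneg_left haD (norm_nonneg _))
  have h9 : g' (a - y) - r / 2 < g (a - y) := by
    have := (abs_le.1 h8).1
    rw [sub_apply] at this
    linarith
  have h10 : N * g (a - y) ≤ N' * g' (a - y) := by linarith
  generalize g (a - y) = s at h9 h10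
  generalize g' (a - y) = s' at h5 h9 h10
  nlinarith

lemma dir_lim {Y : Type*} [NormedAddCommGroup Y] [NormedSpace ℝ Y] (U : Ultrafilter ℕ)
    (v : ℕ → Y) (hv : ∀ n, 0 < ‖v n‖) (E : Submodule ℝ Y) [FiniteDimensional ℝ E]
    (ε : ℕ → ℝ) (hε : Tendsto ε U (𝓝 0)) (hw : ∀ n, ∃ w ∈ E, ‖v n - w‖ ≤ ε n * ‖v n‖) :
    ∃ u0, Tendsto (fun n => ‖v n‖⁻¹ • v n) U (𝓝 u0) := by
  choose w hwE hw using hw
  let u : ℕ → E := fun n => ⟨‖v n‖⁻¹ • w n, E.smul_mem _ (hwE n)⟩
  have hgu : ∀ n, ‖‖v n‖⁻¹ • v n - u n‖ ≤ ε n := fun n => by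
    simp only [u]
    rw [← smul_sub, norm_smul, Real.norm_eq_abs, abs_of_pos (inv_pos.2 (hv n)),
      inv_mul_le_iff₀ (hv n), mul_comm]
    exact hw n
  have hu2 : ∀ᶠ n in (U : Filter ℕ), u n ∈ Metric.closedBall (0 : E) 2 := by
    filter_upwards [hε.eventually (gt_mem_nhds zero_lt_one)] with n hn
    rw [mem_closedBall_zero_iff]
    have h1 := norm_sub_norm_le (u n : Y) (‖v n‖⁻¹ • v n)
    rw [norm_sub_rev, norm_smul ‖v n‖⁻¹ (v n), norm_inv, norm_norm,
      inv_mul_cancel₀ (hv n).ne'] at h1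
    have := hgu n
    change ‖(u n : Y)‖ ≤ 2
    linarith
  have : ProperSpace E := FiniteDimensional.proper_real E
  obtain ⟨u0, -, hu0⟩ := exists_lim_of_compact U u (isCompact_closedBall (0 : E) 2) hu2
  have hu1 : Tendsto (fun n => (u n : Y)) U (𝓝 u0) :=
    (continuous_subtype_val.tendsto u0).comp hu0
  have h1 : Tendsto (fun n => ‖v n‖⁻¹ • v n - u n) U (𝓝 0) := squeeze_zero_norm hgu hε
  exact ⟨u0, by simpa using h1.add hu1⟩

/-- The slopes of cells that approach a point of a cell converge to a different slope, if their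
directions stay close to a finite-dimensional space. -/
lemma slope_lim (hr : 0 < r) (U : Ultrafilter ℕ) {i : ι} {y : X} (hy : y ∈ cell φ κ i)
    (j : ℕ → ι) (x a : ℕ → X) (hx : ∀ n, x n ∈ cell φ κ (j n))
    (hxy : Tendsto (fun n => ‖x n - y‖) U (𝓝 0)) (ha : ∀ n, Inner φ κ r (j n) (a n)) {D : ℝ}
    (hD : 0 < D) (haD : ∀ n, ‖a n - y‖ ≤ D) (E : Submodule ℝ (X →L[ℝ] ℝ)) [FiniteDimensional ℝ E]
    (ε : ℕ → ℝ) (hε : Tendsto ε U (𝓝 0))
    (hw : ∀ n, ∃ w ∈ E, ‖φ (j n) - φ i - w‖ ≤ ε n * ‖φ (j n) - φ i‖)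
    (hne : ∀ n, φ (j n) ≠ φ i) :
    ∃ ψ, ψ ≠ 0 ∧ Tendsto (fun n => φ (j n) - φ i) U (𝓝 ψ) := by
  let N : ℕ → ℝ := fun n => ‖φ (j n) - φ i‖
  have hN : ∀ n, 0 < N n := fun n => norm_pos_iff.2 (sub_ne_zero.2 (hne n))
  let g : ℕ → X →L[ℝ] ℝ := fun n => (N n)⁻¹ • (φ (j n) - φ i)
  have hg : ∀ n, φ (j n) - φ i = N n • g n := fun n => by
    simp only [g, smul_smul, mul_inv_cancel₀ (hN n).ne', one_smul]
  have hg1 : ∀ n, ‖g n‖ = 1 := fun n => by
    simp only [g]
    rw [norm_smul, Real.norm_eq_abs, abs_of_pos (inv_pos.2 (hN n))]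
    exact inv_mul_cancel₀ (hN n).ne'
  obtain ⟨u0, hglim⟩ : ∃ u0, Tendsto g U (𝓝 u0) :=
    dir_lim U (fun n => φ (j n) - φ i) hN E ε hε hw
  have hn0 : ‖(u0 : X →L[ℝ] ℝ)‖ = 1 :=
    tendsto_nhds_unique hglim.norm (by simpa only [hg1] using tendsto_const_nhds)
  have hP : ∀ᶠ n in (U : Filter ℕ), ‖g n - u0‖ < r / (4 * D) ∧ ‖x n - y‖ ≤ r := by
    refine Eventually.and ?_ ?_
    · exact (tendsto_iff_norm_sub_tendsto_zero.1 hglim).eventually (gt_mem_nhds (by positivity))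
    · exact (hxy.eventually (gt_mem_nhds hr)).mono fun n hn => hn.le
  have hrat : ∀ n m, (‖g n - u0‖ < r / (4 * D) ∧ ‖x n - y‖ ≤ r) →
      (‖g m - u0‖ < r / (4 * D) ∧ ‖x m - y‖ ≤ r) → N n < 2 * N m := by
    intro n m hn hm
    refine ratio hr hy (hx n) hn.2 (ha m) (haD m) (hN n) (hN m) (hg n) (hg m) (hg1 m) ?_
    have h1 := norm_sub_le_norm_sub_add_norm_sub (g n) u0 (g m)
    rw [norm_sub_rev (u0 : X →L[ℝ] ℝ)] at h1
    have h2 : ‖g n - g m‖ < r / (2 * D) := by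
      have : r / (2 * D) = r / (4 * D) + r / (4 * D) := by field_simp; ring
      linarith [hn.1, hm.1]
    rw [lt_div_iff₀ (by positivity)] at h2
    linarith
  obtain ⟨m, hm⟩ := hP.exists
  obtain ⟨N0, hN0, hNlim⟩ := exists_lim_of_compact U N
    (isCompact_Icc (a := N m / 2) (b := 2 * N m))
    (hP.mono fun n hn => ⟨by linarith [hrat m n hm hn], (hrat n m hn hm).le⟩)
  have hN0' : 0 < N0 := (half_pos (hN m)).trans_le hN0.1
  refine ⟨N0 • (u0 : X →L[ℝ] ℝ), ?_, ?_⟩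
  · intro h
    have := congrArg norm h
    rw [norm_smul, hn0, norm_zero, mul_one, Real.norm_eq_abs, abs_of_pos hN0'] at this
    exact hN0'.ne' this
  · simpa only [hg] using hNlim.smul hglim

/-- The limit of cells with convergent slopes is a cell. -/
lemma real_cell (hcov : ∀ x, ∃ i, x ∈ cell φ κ i) (hr : 0 < r) (U : Ultrafilter ℕ) {i : ι}
    {y : X} (hy : y ∈ cell φ κ i) (j : ℕ → ι) (x a : ℕ → X) (hx : ∀ n, x n ∈ cell φ κ (j n))
    (hxy : Tendsto (fun n => ‖x n - y‖) U (𝓝 0)) (ha : ∀ n, Inner φ κ r (j n) (a n)) {D : ℝ}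
    (haD : ∀ n, ‖a n - y‖ ≤ D) (p : X →L[ℝ] ℝ) (hp : Tendsto (fun n => φ (j n)) U (𝓝 p))
    (b : X) (hb : ∀ f : X →L[ℝ] ℝ, Tendsto (fun n => f (a n)) U (𝓝 (f b))) :
    ∃ k, φ k = p ∧ y ∈ cell φ κ k ∧ Inner φ κ r k b := by
  have h0 : Tendsto (fun n => ‖φ (j n) - p‖) U (𝓝 0) := tendsto_iff_norm_sub_tendsto_zero.1 hp
  have h1 : Tendsto (fun n => φ (j n) y + κ (j n)) U (𝓝 (φ i y + κ i)) := by
    have h2 : Tendsto (fun n => ‖φ (j n) - φ i‖ * ‖x n - y‖) U (𝓝 0) := by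
      simpa using (hp.sub_const (φ i)).norm.mul hxy
    have h3 : Tendsto (fun n => φ i y + κ i - ‖φ (j n) - φ i‖ * ‖x n - y‖) U
        (𝓝 (φ i y + κ i)) := by simpa using h2.const_sub (φ i y + κ i)
    refine tendsto_of_tendsto_of_tendsto_of_le_of_le h3 tendsto_const_nhds (fun n => ?_)
      (fun n => hy (j n))
    have h4 := hx n i
    have h5 := (φ (j n) - φ i).le_opNorm (x n - y)
    have h6 := le_abs_self ((φ (j n) - φ i) (x n - y))
    rw [Real.norm_eq_abs] at h5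
    have h7 : (φ (j n) - φ i) (x n - y) = φ (j n) (x n) - φ i (x n) - (φ (j n) y - φ i y) := by
      simp only [map_sub, sub_apply]
    simp only
    linarith
  have h2 : ∀ (u : ℕ → X) (c : X) (C : ℝ), (∀ n, ‖u n - y‖ ≤ C) →
      Tendsto (fun n => p (u n)) U (𝓝 (p c)) →
      Tendsto (fun n => φ (j n) (u n) + κ (j n)) U (𝓝 (φ i y + κ i + (p c - p y))) := by
    intro u c C hC hu
    have h3 : Tendsto (fun n => (φ (j n) - p) (u n - y)) U (𝓝 0) := by
      refine squeeze_zero_norm (fun n => ((φ (j n) - p).le_opNorm _).trans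
        (mul_le_mul_of_nonneg_left (hC n) (norm_nonneg _))) ?_
      simpa using h0.mul_const C
    have h4 := (h1.add h3).add (hu.sub_const (p y))
    rw [add_zero] at h4
    refine h4.congr fun n => ?_
    simp only [map_sub, sub_apply]
    ring
  have h3 : ∀ k h, ‖h‖ ≤ r → φ k (b + h) + κ k ≤ φ i y + κ i + (p (b + h) - p y) := by
    intro k h hh
    have h4 : ∀ f : X →L[ℝ] ℝ, Tendsto (fun n => f (a n + h)) U (𝓝 (f (b + h))) := fun f => by
      simpa only [map_add] using (hb f).add_const (f h)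
    refine le_of_tendsto_of_tendsto' ((h4 (φ k)).add_const (κ k))
      (h2 (fun n => a n + h) (b + h) (D + r) (fun n => ?_) (h4 p)) fun n => ha n h hh k
    have : a n + h - y = (a n - y) + h := by abel
    rw [this]
    exact (norm_add_le _ _).trans (add_le_add (haD n) hh)
  obtain ⟨k, hk⟩ := hcov b
  have h4 : φ i y + κ i + (p b - p y) ≤ φ k b + κ k :=
    le_of_tendsto' (h2 (fun _ => b) b ‖b - y‖ (fun _ => le_rfl) tendsto_const_nhds)
      fun n => hk (j n)
  have h5 : r * ‖p - φ k‖ ≤ φ i y + κ i + (p b - p y) - (φ k b + κ k) := by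
    refine aff_bound _ hr fun v hv => ?_
    have := h3 k v hv
    simp only [map_add, sub_apply] at this ⊢
    linarith
  have h6 : 0 ≤ r * ‖p - φ k‖ := by positivity
  have h7 : φ k = p := by
    have : r * ‖p - φ k‖ = 0 := by linarith
    rcases mul_eq_zero.1 this with h | h
    · exact absurd h hr.ne'
    · exact (sub_eq_zero.1 (norm_eq_zero.1 h)).symm
  have h8 : κ k = φ i y + κ i - p y := by rw [h7] at h4 h5; simp at h5; linarith
  refine ⟨k, h7, fun l => ?_, fun h hh l => ?_⟩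
  · have := hy l
    rw [h7, h8]; linarith
  · have := h3 l h hh
    rw [h7, h8]; linarith

end Pool.Agent.P.MP_73700b_an.Reg
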