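import Pool.Agent.P.MP_73700b_an.RegC

/-!
The game on the boundary of a face.
-/

namespace Pool.Agent.P.MP_73700b_an.Reg

open Filter Topology

variable {X : Type*} [NormedAddCommGroup X] [NormedSpace ℝ X] {ι : Type*}

omit [NormedSpace ℝ X] in
/-- The primal step. -/
lemma stepP {L : Type*} [NormedAddCommGroup L] [NormedSpace ℝ L] {J : Type*}
    {q : J → L →L[ℝ] ℝ} (Adm : L × ℝ → J → X → Prop) {w : L × ℝ} (hw : Ok q w) {G : Set X}
    {z : X} {R : ℝ} (hG : G ⊆ Metric.closedBall z R)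
    (good : ∀ w', Ok q w' → Sub w' w → ∃ j a, Adm w' j a ∧ a ∈ G) (d : X) {η : ℝ} (hη : 0 < η) :
    ∃ w' s, Ok q w' ∧ Sub w' w ∧
      (∀ w'', Ok q w'' → Sub w'' w → ∃ j a, Adm w'' j a ∧ a ∈ G ∩ Metric.closedBall d (s + η)) ∧
      ∀ j a, Adm w' j a → a ∈ G → s - η ≤ ‖a - d‖ := by
  let A : Set ℝ := {s | ∃ w', Ok q w' ∧ Sub w' w ∧ ∀ j a, Adm w' j a → a ∈ G → s ≤ ‖a - d‖}
  have hne : A.Nonempty := ⟨0, (w.1, w.2 / 2), ⟨hw.1, half_pos hw.2⟩,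
    sub_self_of_le _ (by linarith), fun j a _ _ => norm_nonneg _⟩
  have hbd : BddAbove A := ⟨R + ‖z - d‖, by
    rintro s ⟨w', h1, h2, h3⟩
    obtain ⟨j, a, h4, h5⟩ := good w' h1 h2
    have h6 := hG h5
    rw [mem_closedBall_iff_norm] at h6
    have := norm_sub_le_norm_sub_add_norm_sub a z d
    linarith [h3 j a h4 h5]⟩
  obtain ⟨s', ⟨w', h1, h2, h3⟩, hlt⟩ :=
    exists_lt_of_lt_csSup hne (show sSup A - η < sSup A by linarith)
  refine ⟨w', sSup A, h1, h2, fun w'' h4 h5 => ?_, fun j a h4 h5 => hlt.le.trans (h3 j a h4 h5)⟩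
  by_contra h
  push Not at h
  have : sSup A + η ≤ sSup A := by
    refine le_csSup hbd ⟨w'', h4, h5, fun j a h6 h7 => ?_⟩
    by_contra h8
    exact h j a h6 ⟨h7, mem_closedBall_iff_norm.2 (not_le.1 h8).le⟩
  linarith

/-- The restriction of a functional to a subspace. -/
noncomputable def res (L : Submodule ℝ X) (f : X →L[ℝ] ℝ) : L →L[ℝ] ℝ := f.comp L.subtypeL

lemma res_apply (L : Submodule ℝ X) (f : X →L[ℝ] ℝ) (v : L) : res L f v = f v := rfl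

lemma norm_res_sub_le (L : Submodule ℝ X) (f g : X →L[ℝ] ℝ) : ‖res L f - res L g‖ ≤ ‖f - g‖ := by
  refine ContinuousLinearMap.opNorm_le_bound _ (norm_nonneg _) fun v => ?_
  exact (f - g).le_opNorm (v : X)

lemma Sub.memX {L : Submodule ℝ X} {w' w : L × ℝ} (h1 : Sub w' w) (z : X) (h : 0 < w'.2) {x : X}
    (hx : ‖x - (z + w'.1)‖ ≤ w'.2) : ‖x - (z + w.1)‖ ≤ w.2 := by
  unfold Sub at h1
  have h2 := norm_sub_le_norm_sub_add_norm_sub x (z + w'.1) (z + w.1)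
  rw [add_sub_add_left_eq_sub] at h2
  have h3 : ‖(w'.1 : X) - w.1‖ = ‖w'.1 - w.1‖ := rfl
  linarith

lemma Body.le_one_of_nested {L : Type*} [NormedAddCommGroup L] [NormedSpace ℝ L] {J : Type*}
    {q : J → L →L[ℝ] ℝ} {M K : ℝ} (B : Body q M K) (w : ℕ → L × ℝ) (hok : ∀ n, Ok q (w n))
    (hτ : Tendsto (fun n => (w n).2) atTop (𝓝 0)) {y : L} (hy : ∀ n, ‖y - (w n).1‖ ≤ (w n).2)
    (k : J) : q k y ≤ 1 := by
  have h5 : Tendsto (fun n => 1 + M * (w n).2) atTop (𝓝 1) := by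
    simpa using (hτ.const_mul M).const_add 1
  refine ge_of_tendsto' h5 fun n => ?_
  have h6 := (B.le_of_norm k (hy n)).1
  rw [map_sub] at h6
  linarith [(hok n).1.1 k]

variable {φ : ι → X →L[ℝ] ℝ} {κ : ι → ℝ} {r : ℝ}

theorem game (hrefl : Function.Surjective (NormedSpace.inclusionInDoubleDual ℝ X))
    (hinj : ∀ i j, φ i = φ j → κ i = κ j → i = j) (hr : 0 < r) {D : ℝ}
    (L : Submodule ℝ X) [CompleteSpace L] {J : Type*} (e : J → ι) (he : Function.Injective e)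
    {q : J → L →L[ℝ] ℝ} {M K : ℝ} (B : Body q M K) (z : X) (Small : J → ℝ → Prop)
    {w0 : L × ℝ} (hw0 : Ok q w0) (hw01 : w0.2 ≤ 1)
    (hgood : ∀ w', Ok q w' → Sub w' w0 → ∃ j a, (∃ x, ‖x - (z + w'.1)‖ ≤ w'.2 ∧
      x ∈ cell φ κ (e j)) ∧ Inner φ κ r (e j) a ∧ ‖a - z‖ ≤ D)
    (hvis : ∀ w, Ok q w → w.2 ≤ 1 → ∃ θ : ℝ, 0 < θ ∧ 2 * θ ≤ w.2 ∧ ∀ j x, ‖x - (z + w.1)‖ ≤ θ →
      x ∈ cell φ κ (e j) → Sees q w j ∨ Small j w.2)
    (havoid : ∀ j w, Ok q w → ∃ w', Ok q w' ∧ Sub w' w ∧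
      ∀ x, ‖x - (z + w'.1)‖ ≤ w'.2 → x ∉ cell φ κ (e j)) :
    ∃ (j : ℕ → J) (x : ℕ → X) (a : ℕ → X) (y : L) (p : X →L[ℝ] ℝ) (b : X) (ε : ℕ → ℝ),
      (∀ n, x n ∈ cell φ κ (e (j n))) ∧ Tendsto (fun n => ‖x n - (z + y)‖) atTop (𝓝 0) ∧
      (∀ k, q k y ≤ 1) ∧ (∀ n, Inner φ κ r (e (j n)) (a n)) ∧ (∀ n, ‖a n - z‖ ≤ D) ∧
      (∀ f : X →L[ℝ] ℝ, Tendsto (fun n => f (a n)) (hyperfilter ℕ) (𝓝 (f b))) ∧
      Tendsto ε (hyperfilter ℕ) (𝓝 0) ∧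
      (∀ᶠ n in (hyperfilter ℕ : Filter ℕ), ((∃ x', ‖x'‖ ≤ K + 1 ∧ 1 ≤ q (j n) x') ∧
        ‖q (j n) - res L p‖ ≤ ε n) ∨ Small (j n) (ε n)) ∧
      ∀ k, z + y ∈ cell φ κ (e k) → ¬ Inner φ κ r (e k) b := by
  have hext : ∀ j, ∃ g : X →L[ℝ] ℝ, res L g = q j ∧ ‖g‖ ≤ M := fun j => by
    obtain ⟨g, h1, h2⟩ := exists_extension_norm_eq L (q j)
    exact ⟨g, ContinuousLinearMap.ext h1, h2.trans_le (B.hM j)⟩
  choose qh hqh hqM using hext
  let Adm : L × ℝ → J → X → Prop := fun w j a =>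
    (∃ x, ‖x - (z + w.1)‖ ≤ w.2 ∧ x ∈ cell φ κ (e j)) ∧ Inner φ κ r (e j) a
  have Adm_mono : ∀ {w' w j a}, Adm w' j a → Sub w' w → 0 < w'.2 → Adm w j a := by
    rintro w' w j a ⟨⟨x, h1, h2⟩, h3⟩ h4 h5
    exact ⟨⟨x, h4.memX z h5 h1, h2⟩, h3⟩
  have hbound : ∀ {w : L × ℝ} {x : L}, Ok q w → w.2 ≤ 1 → ‖x - w.1‖ ≤ w.2 → ‖x‖ ≤ K + 1 := by
    intro w x h1 h2 h3
    have h4 := B.hK _ h1.1.1
    have := norm_sub_norm_le x w.1
    linarith
  have Sub_le : ∀ {w' w : L × ℝ}, Sub w' w → 0 < w'.2 → w'.2 ≤ w.2 := by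
    intro w' w h1 h2
    unfold Sub at h1
    linarith [norm_nonneg (w'.1 - w.1)]
  let P : (L × ℝ) × Set X → Prop := fun s => Ok q s.1 ∧ s.1.2 ≤ 1 ∧ Convex ℝ s.2 ∧
    IsClosed s.2 ∧ s.2 ⊆ Metric.closedBall z D ∧
    ∀ w', Ok q w' → Sub w' s.1 → ∃ j a, Adm w' j a ∧ a ∈ s.2
  have hP0 : P (w0, Metric.closedBall z D) := by
    refine ⟨hw0, hw01, convex_closedBall _ _, Metric.isClosed_closedBall,
      subset_rfl, fun w' h1 h2 => ?_⟩
    obtain ⟨j, a, h3, h4, h5⟩ := hgood w' h1 h2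
    exact ⟨j, a, ⟨h3, h4⟩, mem_closedBall_iff_norm.2 h5⟩
  let R : ℕ → {s // P s} → (X →L[ℝ] ℝ) × X → {s // P s} → (X →L[ℝ] ℝ) × X → Prop :=
    fun n s d s' y => Sub s'.1.1 s.1.1 ∧ s'.1.2 ⊆ s.1.2 ∧
      (∃ (v : L) (t : ℝ), ‖v‖ ≤ 1 ∧ ∀ j, Sees q s'.1.1 j →
        t - 1 / ((n : ℝ) + 1) ≤ (q j - res L d.1) v ∧ ‖q j - res L d.1‖ ≤ t + 1 / ((n : ℝ) + 1)) ∧
      (∃ t : ℝ, s'.1.2 ⊆ Metric.closedBall d.2 (t + r / 8) ∧
        ∀ j a, Adm s'.1.1 j a → a ∈ s'.1.2 → t - r / 8 ≤ ‖a - d.2‖) ∧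
      ∃ j, y.1 = qh j ∧ Adm s.1.1 j y.2 ∧ y.2 ∈ s.1.2 ∧ (Sees q s.1.1 j ∨ Small j s.1.1.2) ∧
        ∀ a, ¬ Adm s'.1.1 j a
  have hR : ∀ n s d, ∃ s' y, R n s d s' y := by
    rintro n ⟨⟨w, G⟩, hw, hw1, hc, hcl, hG, good⟩ ⟨d1, d2⟩
    simp only at hw hw1 hc hcl hG good
    obtain ⟨θ, hθ, hθ2, hθ3⟩ := hvis w hw hw1
    obtain ⟨j, a, hja, haG⟩ := good (w.1, θ) ⟨hw.1, hθ⟩ (sub_self_of_le _ hθ2)
    have hja' : Adm w j a := Adm_mono hja (sub_self_of_le _ hθ2) hθ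
    have hja2 : Sees q w j ∨ Small j w.2 := by
      obtain ⟨⟨x, h1, h2⟩, -⟩ := hja
      exact hθ3 j x h1 h2
    obtain ⟨w1, hw1o, hw1s, v, t, hv, hA⟩ := B.stepA hw (res L d1)
      (show 0 < 1 / ((n : ℝ) + 1) by positivity)
    obtain ⟨w2, s, hw2o, hw2s, good2, hlow⟩ := stepP Adm hw1o hG
      (fun w' h1 h2 => good w' h1 (h2.trans hw1s hw1o.2)) d2 (show 0 < r / 8 by positivity)
    obtain ⟨w3, hw3o, hw3s, hns⟩ := havoid j w2 hw2o
    have h31 : Sub w3 w1 := hw3s.trans hw2s hw2o.2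
    have h30 : Sub w3 w := h31.trans hw1s hw1o.2
    refine ⟨⟨(w3, G ∩ Metric.closedBall d2 (s + r / 8)), hw3o, (Sub_le h30 hw3o.2).trans hw1,
      hc.inter (convex_closedBall _ _), hcl.inter Metric.isClosed_closedBall,
      Set.inter_subset_left.trans hG, fun w' h1 h2 => good2 w' h1 (h2.trans h31 hw3o.2)⟩,
      (qh j, a), h30, Set.inter_subset_left, ⟨v, t, hv, fun k hk => hA k (hk.mono h31 hw3o.2)⟩,
      ⟨s, Set.inter_subset_right, fun k a' h1 h2 => hlow k a' (Adm_mono h1 hw3s hw3o.2) h2.1⟩,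
      j, rfl, hja', haG, hja2, ?_⟩
    rintro a' ⟨⟨x, h1, h2⟩, -⟩
    exact hns x h1 h2
  obtain ⟨s, d, y, hs, hd⟩ := adaptive ⟨_, hP0⟩ R hR
  choose h1 h2 h3 h4 j hj1 hj2 hj3 hj5 hj4 using hs
  have hok : ∀ n, Ok q (s n).1.1 := fun n => (s n).2.1
  obtain ⟨hsub, hτ, yl, hyl⟩ := nested (fun n => (s n).1.1) (fun n => (hok n).2) h1
  have hG : ∀ n m, n ≤ m → (s m).1.2 ⊆ (s n).1.2 := by
    intro n m hnm
    induction m, hnm using Nat.le_induction with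
    | base => exact subset_rfl
    | succ m _ ih => exact (h2 m).trans ih
  have hsees : ∀ n m, n ≤ m → Sees q (s m).1.1 (j m) → Sees q (s n).1.1 (j m) := by
    intro n m hnm h
    rcases hnm.eq_or_lt with rfl | hnm
    · exact h
    · exact h.mono (hsub n m hnm) (hok m).2
  have hylX : ∀ n, ‖(z + yl) - (z + (s n).1.1.1)‖ ≤ (s n).1.1.2 := fun n => by
    rw [add_sub_add_left_eq_sub]; exact hyl n
  choose x hx1 hx2 using fun n => (hj2 n).1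
  have haz : ∀ n, ‖(y n).2 - z‖ ≤ D := fun n =>
    mem_closedBall_iff_norm.1 ((s n).2.2.2.2.2.1 (hj3 n))
  obtain ⟨p, hp⟩ := exists_wstar_lim (hyperfilter ℕ) (fun n => (y n).1) M
    fun n => by rw [hj1]; exact hqM _
  obtain ⟨b, hb⟩ := exists_weak_lim hrefl (hyperfilter ℕ) (fun n => (y n).2) (D + ‖z‖)
    fun n => by linarith [haz n, norm_sub_norm_le (y n).2 z]
  have hev : ∀ n, ∀ᶠ m in (hyperfilter ℕ : Filter ℕ), n ≤ m := fun n =>
    Nat.hyperfilter_le_atTop (eventually_ge_atTop n)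
  have hε : ∃ ε : ℕ → ℝ, Tendsto ε (hyperfilter ℕ) (𝓝 0) ∧
      (∀ᶠ n in (hyperfilter ℕ : Filter ℕ), ((∃ x', ‖x'‖ ≤ K + 1 ∧ 1 ≤ q (j n) x') ∧
        ‖q (j n) - res L p‖ ≤ ε n) ∨ Small (j n) (ε n)) := by
    by_cases hU : ∀ᶠ n in (hyperfilter ℕ : Filter ℕ), Sees q (s n).1.1 (j n)
    · refine ⟨fun n => ‖q (j n) - res L p‖, ?_, hU.mono fun n hn => Or.inl ⟨?_, le_rfl⟩⟩
      · rw [Metric.tendsto_nhds]
        intro ε hε
        obtain ⟨l, hl⟩ := approx_of_weak_lim (hyperfilter ℕ) (fun n => (y n).1) p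
          (weak_of_wstar hrefl _ _ _ hp) (show 0 < ε / 4 by positivity)
        obtain ⟨N, hN⟩ := exists_nat_one_div_lt (show 0 < ε / 4 by positivity)
        obtain ⟨n, hn, hdn⟩ := hd l N
        have hd1 : (d n).1 = comb (fun n => (y n).1) l := by
          rw [hdn]; exact map_comb (ContinuousLinearMap.fst ℝ _ _) y l
        obtain ⟨v, t, hv, hA⟩ := h3 n
        have hη : 1 / ((n : ℝ) + 1) < ε / 4 :=
          (Nat.one_div_le_one_div hn).trans_lt hN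
        have h5 : t - 1 / ((n : ℝ) + 1) ≤ (res L p - res L (d n).1) v := by
          refine ge_of_tendsto ((hp v).sub_const ((d n).1 v))
            (((hev (n + 1)).and hU).mono fun m hm => ?_)
          have := (hA _ (hsees _ _ hm.1 hm.2)).1
          rw [← hqh, ← hj1] at this
          exact this
        have h6 : (res L p - res L (d n).1) v ≤ ‖p - (d n).1‖ := by
          have h7 := (res L p - res L (d n).1).le_opNorm v
          have h8 := norm_res_sub_le L p (d n).1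
          have h9 := le_abs_self ((res L p - res L (d n).1) v)
          rw [Real.norm_eq_abs] at h7
          nlinarith [norm_nonneg (res L p - res L (d n).1)]
        refine ((hev (n + 1)).and hU).mono fun m hm => ?_
        rw [Real.dist_eq, sub_zero, abs_of_nonneg (norm_nonneg (q (j m) - res L p))]
        have h7 := (hA _ (hsees _ _ hm.1 hm.2)).2
        have h8 := norm_sub_le_norm_sub_add_norm_sub (q (j m)) (res L (d n).1) (res L p)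
        have h9 := norm_res_sub_le L (d n).1 p
        rw [norm_sub_rev (d n).1] at h9
        rw [← hd1] at hl
        linarith
      · obtain ⟨x', h5, h6⟩ := hn
        exact ⟨x', hbound (hok n) (s n).2.2.1 h5, h6⟩
    · rw [← Ultrafilter.eventually_not] at hU
      exact ⟨fun n => (s n).1.1.2, hτ.mono_left Nat.hyperfilter_le_atTop,
        hU.mono fun n hn => Or.inr ((hj5 n).resolve_left hn)⟩
  obtain ⟨ε, hε1, hε2⟩ := hε
  refine ⟨j, x, fun n => (y n).2, yl, p, b, ε, hx2, ?_, fun k => ?_,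
    fun n => (hj2 n).2, haz, hb, hε1, hε2, fun k hk hkb => ?_⟩
  · refine squeeze_zero (fun n => norm_nonneg _) (fun n => ?_) (by simpa using hτ.add hτ)
    have := norm_sub_le_norm_sub_add_norm_sub (x n) (z + (s n).1.1.1) (z + yl)
    rw [norm_sub_rev (z + (s n).1.1.1)] at this
    linarith [hx1 n, hylX n]
  · exact B.le_one_of_nested (fun n => (s n).1.1) hok hτ hyl k
  · obtain ⟨l, hl⟩ := approx_of_weak_lim (hyperfilter ℕ) (fun n => (y n).2) b hb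
      (show 0 < r / 4 by positivity)
    obtain ⟨n, -, hdn⟩ := hd l 0
    have hd2 : (d n).2 = comb (fun n => (y n).2) l := by
      rw [hdn]; exact map_comb (ContinuousLinearMap.snd ℝ _ _) y l
    obtain ⟨t, h5, h6⟩ := h4 n
    have hbG : b ∈ (s (n + 1)).1.2 :=
      mem_of_weak_lim (hyperfilter ℕ) _ b hb (s (n + 1)).2.2.2.1 (s (n + 1)).2.2.2.2.1
        ((hev (n + 1)).mono fun m hm => hG _ _ hm (hj3 m))
    have h7 := h6 k b ⟨⟨z + yl, hylX _, hk⟩, hkb⟩ hbG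
    rw [← hd2] at hl
    have h8 := mem_closedBall_iff_norm.1 (h5 (hj3 (n + 1)))
    have h9 := mem_closedBall_iff_norm.1 (h5 (h2 (n + 1) (hj3 (n + 2))))
    have hne : e (j (n + 1)) ≠ e (j (n + 2)) := fun h =>
      hj4 (n + 1) _ (he h ▸ hj2 (n + 2))
    have h10 := Inner.sep hinj hr (hj2 (n + 1)).2 (hj2 (n + 2)).2 hne
    have h11 := norm_sub_le_norm_sub_add_norm_sub (y (n + 1)).2 (d n).2 (y (n + 2)).2
    rw [norm_sub_rev (d n).2] at h11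
    linarith

end Pool.Agent.P.MP_73700b_an.Reg
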