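import Pool.Agent.P.MP_73700b_an.RegD

/-!
One step: a fat face extends to one more cell, or it has a point approached by tiny cells only.
-/

namespace Pool.Agent.P.MP_73700b_an.Reg

open Filter Topology

variable {X : Type*} [NormedAddCommGroup X] [NormedSpace ℝ X] {ι : Type*}

/-- The common kernel of finitely many functionals. -/
def kers (Γ : Finset (X →L[ℝ] ℝ)) : Submodule ℝ X where
  carrier := {v | ∀ γ ∈ Γ, γ v = 0}
  add_mem' := fun ha hb γ hγ => by rw [map_add, ha γ hγ, hb γ hγ, add_zero]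
  zero_mem' := fun γ _ => by simp
  smul_mem' := fun c v hv γ hγ => by rw [map_smul, hv γ hγ, smul_zero]

/-- The cells in `S` contain a neighbourhood of `z` in a flat of finite codimension. -/
def Fat (φ : ι → X →L[ℝ] ℝ) (κ : ι → ℝ) (S : Finset ι) (Γ : Finset (X →L[ℝ] ℝ)) (z : X) :
    Prop :=
  (∀ v ∈ kers Γ, ∀ i ∈ S, ∀ i' ∈ S, φ i v = φ i' v) ∧
    ∃ ρ : ℝ, 0 < ρ ∧ ∀ v ∈ kers Γ, ‖v‖ ≤ ρ → ∀ i ∈ S, z + v ∈ cell φ κ i

/-- The point `y` is approached by cells outside `S`, and these are tiny. -/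
def Tiny (φ : ι → X →L[ℝ] ℝ) (κ : ι → ℝ) (sz : ι → ℝ) (S : Finset ι) (y : X) : Prop :=
  (∀ r : ℝ, 0 < r → ∃ τ : ℝ, 0 < τ ∧ ∀ j, j ∉ S → ∀ x ∈ cell φ κ j, ‖x - y‖ ≤ τ → sz j < r) ∧
    ∀ τ : ℝ, 0 < τ → ∃ j, j ∉ S ∧ ∃ x ∈ cell φ κ j, ‖x - y‖ ≤ τ

/-- Uniformly fat bounded cells that cover the space. -/
structure Cells (φ : ι → X →L[ℝ] ℝ) (κ : ι → ℝ) (sz : ι → ℝ) (ctr : ι → X) (C : ℝ) : Prop where
  hinj : ∀ i j, φ i = φ j → κ i = κ j → i = j
  hcov : ∀ x, ∃ i, x ∈ cell φ κ i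
  C_pos : 0 < C
  sz_pos : ∀ i, 0 < sz i
  inner : ∀ i, Inner φ κ (sz i) i (ctr i)
  outer : ∀ i, ∀ x ∈ cell φ κ i, ‖x - ctr i‖ ≤ C * sz i

variable {φ : ι → X →L[ℝ] ℝ} {κ : ι → ℝ} {sz : ι → ℝ} {ctr : ι → X} {C : ℝ}

lemma kers_closed (Γ : Finset (X →L[ℝ] ℝ)) : IsClosed (kers Γ : Set X) := by
  have : (kers Γ : Set X) = ⋂ γ ∈ Γ, {v | γ v = 0} := by
    ext v; simp only [Set.mem_iInter]; rfl
  rw [this]
  exact isClosed_biInter fun γ _ => isClosed_eq γ.continuous continuous_const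

lemma kers_ne (hinf : ¬ FiniteDimensional ℝ X) (Γ : Finset (X →L[ℝ] ℝ)) :
    ∃ v : kers Γ, v ≠ 0 := by
  by_contra h
  push Not at h
  let T : X →ₗ[ℝ] (Γ → ℝ) := LinearMap.pi fun γ : Γ => (γ : X →L[ℝ] ℝ)
  refine hinf (FiniteDimensional.of_injective T ?_)
  rw [injective_iff_map_eq_zero]
  intro v hv
  have hv' : v ∈ kers Γ := fun γ hγ => congrFun hv ⟨γ, hγ⟩
  exact congrArg Subtype.val (h ⟨v, hv'⟩)

lemma mem_span_of_kers (Γ : Finset (X →L[ℝ] ℝ)) (f : X →L[ℝ] ℝ)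
    (hf : ∀ v ∈ kers Γ, f v = 0) :
    f ∈ Submodule.span ℝ (Set.range fun γ : Γ => (γ : X →L[ℝ] ℝ)) := by
  have h : (f : X →ₗ[ℝ] ℝ) ∈ Submodule.span ℝ
      (Set.range fun γ : Γ => ((γ : X →L[ℝ] ℝ) : X →ₗ[ℝ] ℝ)) := by
    refine mem_span_of_iInf_ker_le_ker fun v hv => ?_
    rw [Submodule.mem_iInf] at hv
    exact hf v fun γ hγ => hv ⟨γ, hγ⟩
  obtain ⟨c, hc⟩ := (Submodule.mem_span_range_iff_exists_fun ℝ).1 h
  refine (Submodule.mem_span_range_iff_exists_fun ℝ).2 ⟨c, ?_⟩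
  ext v
  have := LinearMap.congr_fun hc v
  simpa using this

lemma cell_closed (i : ι) : IsClosed (cell φ κ i) := by
  have : cell φ κ i = ⋂ j, {x | φ j x + κ j ≤ φ i x + κ i} := by
    ext x; simp only [Set.mem_iInter]; rfl
  rw [this]
  exact isClosed_iInter fun j => isClosed_le (by fun_prop) (by fun_prop)

lemma Cells.plump (T : Cells φ κ sz ctr C) {r : ℝ} (hr : 0 < r) {i : ι} (hi : r ≤ sz i) {x : X}
    (hx : x ∈ cell φ κ i) : ∃ a, ‖a - x‖ ≤ C * r ∧ Inner φ κ r i a := by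
  have hs := T.sz_pos i
  have ht : 0 < r / sz i := by positivity
  have ht1 : r / sz i ≤ 1 := (div_le_one hs).2 hi
  refine ⟨x + (r / sz i) • (ctr i - x), ?_, fun h hh k => ?_⟩
  · rw [add_sub_cancel_left, norm_smul, Real.norm_eq_abs, abs_of_pos ht, norm_sub_rev]
    calc r / sz i * ‖x - ctr i‖ ≤ r / sz i * (C * sz i) :=
          mul_le_mul_of_nonneg_left (T.outer i x hx) ht.le
      _ = C * r := by field_simp
  · have h1 := T.inner i ((r / sz i)⁻¹ • h) (by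
      rw [norm_smul, Real.norm_eq_abs, abs_of_pos (inv_pos.2 ht), inv_mul_le_iff₀ ht,
        div_mul_cancel₀ _ hs.ne']
      exact hh) k
    have h2 := hx k
    generalize r / sz i = t at ht ht1 h1
    simp only [map_add, map_smul, map_sub, smul_eq_mul] at h1 ⊢
    have h3 := mul_le_mul_of_nonneg_left h1 ht.le
    have h4 := mul_le_mul_of_nonneg_left h2 (sub_nonneg.2 ht1)
    have e1 : t * (t⁻¹ * φ k h) = φ k h := by field_simp
    have e2 : t * (t⁻¹ * φ i h) = φ i h := by field_simp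
    nlinarith

theorem step [CompleteSpace X] [DecidableEq ι] [DecidableEq (X →L[ℝ] ℝ)]
    (hinf : ¬ FiniteDimensional ℝ X)
    (hrefl : Function.Surjective (NormedSpace.inclusionInDoubleDual ℝ X))
    (T : Cells φ κ sz ctr C) (S : Finset ι) {i0 : ι} (hi0 : i0 ∈ S) (Γ : Finset (X →L[ℝ] ℝ))
    (z : X) (hS : Fat φ κ S Γ z) :
    (∃ j, j ∉ S ∧ ∃ Γ' z', Γ ⊆ Γ' ∧ z' - z ∈ kers Γ ∧ Fat φ κ (insert j S) Γ' z') ∨
      ∃ y ∈ cell φ κ i0, Tiny φ κ sz S y := by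
  classical
  by_contra hcon
  rw [not_or] at hcon
  obtain ⟨hcon, hcon2⟩ := hcon
  push Not at hcon hcon2
  obtain ⟨hLS, ρ, hρ, hz⟩ := hS
  let L := kers Γ
  have : CompleteSpace L := (kers_closed Γ).completeSpace_coe
  have hz' : ∀ v : L, ‖v‖ ≤ ρ → ∀ i ∈ S, z + v ∈ cell φ κ i := fun v hv => hz v v.2 hv
  have hz0 : ∀ i ∈ S, z ∈ cell φ κ i := fun i hi => by
    simpa using hz' 0 (by simpa using hρ.le) i hi
  have hv2 : ∀ (v : L), ∀ i ∈ S, φ i v = φ i0 v := fun v i hi => hLS v v.2 i hi i0 hi0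
  have hSeq : ∀ i ∈ S, ∀ v : L, φ i (z + v) + κ i = φ i0 (z + v) + κ i0 := fun i hi v => by
    have h1 := hz0 i hi i0
    have h2 := hz0 i0 hi0 i
    rw [map_add, map_add, hv2 v i hi]; linarith
  have hmemL : ∀ j v, v ∈ kers (insert (φ j - φ i0) Γ) → v ∈ L ∧ φ j v = φ i0 v := fun j v hv =>
    ⟨fun γ hγ => hv γ (Finset.mem_insert_of_mem hγ),
      sub_eq_zero.1 (hv _ (Finset.mem_insert_self _ _))⟩
  have hnofat : ∀ j, j ∉ S → ∀ (u : L) (t : ℝ), 0 < t →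
      ¬ ∀ v : L, φ j v = φ i0 v → ‖v‖ ≤ t → ∀ i ∈ insert j S, z + u + v ∈ cell φ κ i := by
    intro j hj u t ht h
    refine hcon j hj (insert (φ j - φ i0) Γ) (z + u) (Finset.subset_insert _ _) (by simp)
      ⟨fun v hv i hi i' hi' => ?_, t, ht, fun v hv hvt =>
        h ⟨v, (hmemL j v hv).1⟩ (hmemL j v hv).2 hvt⟩
    have h1 : ∀ i ∈ insert j S, φ i v = φ i0 v := fun i hi => by
      rcases Finset.mem_insert.1 hi with rfl | hi
      · exact (hmemL _ v hv).2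
      · exact hv2 ⟨v, (hmemL j v hv).1⟩ i hi
    exact (h1 i hi).trans (h1 i' hi').symm
  let J := {j // j ∉ S}
  let β : J → ℝ := fun j => (φ i0 z + κ i0) - (φ j z + κ j)
  have hβ1 : ∀ j : J, ρ * ‖res L (φ i0 - φ j)‖ ≤ β j := fun j => by
    refine aff_bound _ hρ fun v hv => ?_
    have := hz' v hv i0 hi0 j
    simp only [map_add, res_apply, sub_apply, β] at this ⊢
    linarith
  have hβ : ∀ j : J, 0 < β j := fun j => by
    by_contra h
    push Not at h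
    have h1 := hβ1 j
    have h2 : 0 ≤ ρ * ‖res L (φ i0 - φ j)‖ := by positivity
    have h4 : β j = 0 := by linarith
    refine hnofat j j.2 0 ρ hρ fun v hvj hvρ i hi => ?_
    simp only [ZeroMemClass.coe_zero, add_zero]
    rcases Finset.mem_insert.1 hi with rfl | hi
    · intro k
      have := hz' v hvρ i0 hi0 k
      simp only [map_add, β] at this h4 ⊢
      linarith
    · exact hz' v hvρ i hi
  let q : J → L →L[ℝ] ℝ := fun j => (β j)⁻¹ • res L (φ j - φ i0)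
  have hq : ∀ (j : J) (v : L), φ j v - φ i0 v = β j * q j v := fun j v => by
    simp only [q, smul_apply, smul_eq_mul, res_apply, sub_apply]
    rw [← mul_assoc, mul_inv_cancel₀ (hβ j).ne', one_mul]
  have hl : ∀ (j : J) (v : L),
      φ j (z + v) + κ j = φ i0 (z + v) + κ i0 + β j * (q j v - 1) := fun j v => by
    have := hq j v
    simp only [map_add, β] at this ⊢
    linarith
  have hin : ∀ v : L, (∀ j, q j v ≤ 1) → ∀ i ∈ S, z + v ∈ cell φ κ i := fun v hv i hi k => by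
    rw [hSeq i hi]
    by_cases hk : k ∈ S
    · exact (hSeq k hk v).le
    · have h1 := hl ⟨k, hk⟩ v
      have h2 := mul_nonpos_of_nonneg_of_nonpos (hβ ⟨k, hk⟩).le (sub_nonpos.2 (hv ⟨k, hk⟩))
      simp only at h1
      linarith
  obtain ⟨K, hK, B⟩ : ∃ K, 0 < K ∧ Body q ρ⁻¹ K := by
    have hK : 0 < 2 * (C * sz i0) := by have := T.C_pos; have := T.sz_pos i0; positivity
    refine ⟨_, hK, inv_pos.2 hρ, hK, fun j => ?_, fun v hv => ?_⟩
    · refine ContinuousLinearMap.opNorm_le_bound _ (inv_pos.2 hρ).le fun v => ?_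
      have h1 := (res L (φ i0 - φ j)).le_opNorm v
      have h2 := hβ1 j
      have h3 : res L (φ i0 - φ j) v = -(β j * q j v) := by
        rw [← hq]; simp [res_apply]
      rw [h3, norm_neg, norm_mul, Real.norm_eq_abs, abs_of_pos (hβ j)] at h1
      rw [le_inv_mul_iff₀ hρ]
      refine le_of_mul_le_mul_left ?_ (hβ j)
      nlinarith [norm_nonneg v]
    · have h1 := T.outer i0 _ (hin v hv i0 hi0)
      have h2 := T.outer i0 _ (hz0 i0 hi0)
      have h3 := norm_sub_le_norm_sub_add_norm_sub (z + v) (ctr i0) z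
      rw [add_sub_cancel_left, norm_sub_rev (ctr i0)] at h3
      have : ‖(v : X)‖ = ‖v‖ := rfl
      linarith
  obtain ⟨v0, hv0⟩ := kers_ne hinf Γ
  obtain ⟨x0, hx0⟩ := B.exists_bd v0 hv0
  have hout : ∀ w, Ok q w → ∃ j : J, ∃ x ∈ cell φ κ j, ‖x - (z + w.1)‖ ≤ w.2 := fun w hw => by
    obtain ⟨x, j, hx, hj⟩ := B.exists_out hw
    obtain ⟨k, hk⟩ := T.hcov (z + x)
    refine ⟨⟨k, fun hkS => ?_⟩, z + x, hk, by rw [add_sub_add_left_eq_sub]; exact hx⟩
    have h1 := hk j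
    rw [hl, hSeq k hkS] at h1
    have := mul_pos (hβ j) (sub_pos.2 hj)
    linarith
  by_cases hI : ∀ r : ℝ, 0 < r → ∀ w, Ok q w → ∃ w', Ok q w' ∧ Sub w' w ∧
      ∀ j : J, ∀ x ∈ cell φ κ j, ‖x - (z + w'.1)‖ ≤ w'.2 → sz j < r
  · have h1 : ∀ (n : ℕ) (w : {w // Ok q w}), ∃ w' : {w // Ok q w}, Sub w'.1 w.1 ∧
        ∀ j : J, ∀ x ∈ cell φ κ j, ‖x - (z + w'.1.1)‖ ≤ w'.1.2 → sz j < 1 / ((n : ℝ) + 1) := by
      intro n w
      obtain ⟨w', h1, h2, h3⟩ := hI (1 / ((n : ℝ) + 1)) (by positivity) w.1 w.2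
      exact ⟨⟨w', h1⟩, h2, h3⟩
    choose nx hnx1 hnx2 using h1
    let w : ℕ → {w // Ok q w} := fun n => Nat.rec ⟨(x0, 1), hx0, one_pos⟩ nx n
    obtain ⟨-, hτ, y, hy⟩ := nested (fun n => (w n).1) (fun n => (w n).2.2) fun n => hnx1 n (w n)
    have hyX : ∀ n, ‖(z + y) - (z + (w n).1.1)‖ ≤ (w n).1.2 := fun n => by
      rw [add_sub_add_left_eq_sub]; exact hy n
    refine hcon2 (z + y) (hin y (B.le_one_of_nested _ (fun n => (w n).2) hτ hy) i0 hi0)
      ⟨fun r hr => ?_, fun τ hτ0 => ?_⟩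
    · obtain ⟨n, hn⟩ := exists_nat_one_div_lt hr
      refine ⟨(w (n + 2)).1.2, (w (n + 2)).2.2, fun j hj x hx hxy => ?_⟩
      refine (hnx2 n (w n) ⟨j, hj⟩ x hx ?_).trans hn
      have h2 : Sub (w (n + 2)).1 (w (n + 1)).1 := hnx1 (n + 1) (w (n + 1))
      unfold Sub at h2
      have h3 := norm_sub_le_norm_sub_add_norm_sub x (z + y) (z + (w (n + 1)).1.1)
      have h4 := norm_sub_le_norm_sub_add_norm_sub (z + y) (z + (w (n + 2)).1.1)
        (z + (w (n + 1)).1.1)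
      have h5 : ‖(z + (w (n + 2)).1.1) - (z + (w (n + 1)).1.1)‖
          = ‖(w (n + 2)).1.1 - (w (n + 1)).1.1‖ := by
        rw [add_sub_add_left_eq_sub]; rfl
      change ‖x - (z + (w (n + 1)).1.1)‖ ≤ (w (n + 1)).1.2
      linarith [hyX (n + 2)]
    · obtain ⟨n, hn⟩ := (hτ.eventually (gt_mem_nhds (half_pos hτ0))).exists
      obtain ⟨j, x, hx, hxw⟩ := hout _ (w n).2
      refine ⟨j, j.2, x, hx, ?_⟩
      have h3 := norm_sub_le_norm_sub_add_norm_sub x (z + (w n).1.1) (z + y)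
      rw [norm_sub_rev (z + (w n).1.1)] at h3
      linarith [hyX n]
  push Not at hI
  obtain ⟨r, hr, w00, hw00, hbig⟩ := hI
  have hw0 : Ok q (w00.1, min (w00.2 / 2) 1) := ⟨hw00.1, lt_min (half_pos hw00.2) one_pos⟩
  have hw0s : Sub (w00.1, min (w00.2 / 2) 1) w00 :=
    sub_self_of_le _ (by linarith [min_le_left (w00.2 / 2) 1])
  have hgood : ∀ w', Ok q w' → Sub w' (w00.1, min (w00.2 / 2) 1) → ∃ (j : J) (a : X),
      (∃ x, ‖x - (z + w'.1)‖ ≤ w'.2 ∧ x ∈ cell φ κ j) ∧ Inner φ κ r j a ∧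
        ‖a - z‖ ≤ K + 1 + C * r := by
    intro w' h1 h2
    obtain ⟨j, x, hx, hxw, hj⟩ := hbig w' h1 (h2.trans hw0s hw0.2)
    obtain ⟨a, ha1, ha2⟩ := T.plump hr hj hx
    refine ⟨j, a, ⟨x, hxw, hx⟩, ha2, ?_⟩
    have h3 := norm_sub_le_norm_sub_add_norm_sub a x z
    have h4 := norm_sub_le_norm_sub_add_norm_sub x (z + w'.1) z
    rw [add_sub_cancel_left] at h4
    have h5 : ‖(w'.1 : X)‖ ≤ K := B.hK _ h1.1.1
    unfold Sub at h2
    have h6 := min_le_right (w00.2 / 2) 1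
    have h7 := norm_nonneg (w'.1 - w00.1)
    have h8 := h1.2
    simp only at h2
    linarith
  let Small : J → ℝ → Prop := fun j ε => ∀ i ∈ S, β j ≤ ε * ‖φ j - φ i‖
  have hvis : ∀ w, Ok q w → w.2 ≤ 1 → ∃ θ : ℝ, 0 < θ ∧ 2 * θ ≤ w.2 ∧ ∀ (j : J) x,
      ‖x - (z + w.1)‖ ≤ θ → x ∈ cell φ κ j → Sees q w j ∨ Small j w.2 := by
    intro w hw _
    have hT := hw.2
    obtain ⟨η, hη, hη1, hη2⟩ : ∃ η : ℝ, 0 < η ∧ η ≤ 1 / 2 ∧ 2 * K * η ≤ w.2 := by
      refine ⟨min (1 / 2) (w.2 / (2 * K)), by positivity, min_le_left _ _, ?_⟩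
      rw [mul_comm, ← le_div_iff₀ (by positivity)]; exact min_le_right _ _
    refine ⟨w.2 * η, by positivity, by nlinarith, fun j x hx hxj => ?_⟩
    by_contra h
    rw [not_or] at h
    obtain ⟨h1, h2⟩ := h
    simp only [Small] at h2
    push Not at h2
    obtain ⟨i, hi, h2⟩ := h2
    have h3 := hxj i
    have h4 := hl j w.1
    rw [← hSeq i hi] at h4
    have h5 := (φ j - φ i).le_opNorm (x - (z + w.1))
    have h6 := le_abs_self ((φ j - φ i) (x - (z + w.1)))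
    rw [Real.norm_eq_abs] at h5
    have h7 : (φ j - φ i) (x - (z + w.1)) = φ j x - φ i x - (φ j (z + w.1) - φ i (z + w.1)) := by
      simp only [map_sub, sub_apply]
    have h8 : ‖φ j - φ i‖ * ‖x - (z + w.1)‖ ≤ ‖φ j - φ i‖ * (w.2 * η) :=
      mul_le_mul_of_nonneg_left hx (norm_nonneg _)
    have h9 : β j * (1 - q j w.1) ≤ β j * η := by nlinarith
    have h10 := le_of_mul_le_mul_left h9 (hβ j)
    refine h1 ⟨(1 + 2 * η) • w.1, ?_, ?_⟩
    · have : (1 + 2 * η) • w.1 - w.1 = (2 * η) • w.1 := by rw [add_smul, one_smul]; abel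
      rw [this, norm_smul, Real.norm_eq_abs, abs_of_pos (by positivity)]
      nlinarith [B.hK _ hw.1.1]
    · rw [map_smul, smul_eq_mul]
      nlinarith
  have havoid : ∀ (j : J) w, Ok q w → ∃ w', Ok q w' ∧ Sub w' w ∧
      ∀ x, ‖x - (z + w'.1)‖ ≤ w'.2 → x ∉ cell φ κ j := by
    intro j w hw
    have hT := hw.2
    obtain ⟨x', h1, h2, h3⟩ : ∃ x', Bd q x' ∧ ‖x' - w.1‖ ≤ w.2 / 2 ∧ q j x' ≠ 1 := by
      by_contra h
      push Not at h
      obtain ⟨h1, t, ht, h2⟩ := B.flat (w := (w.1, w.2 / 2)) ⟨hw.1, half_pos hT⟩ j h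
      refine hnofat j j.2 w.1 t ht fun v hvj hvt i hi => ?_
      have h3 : q j v = 0 := by
        have := hq j v
        simp only [hvj, sub_self] at this
        exact (mul_eq_zero.1 this.symm).resolve_left (hβ j).ne'
      have h4 := hin _ (h2 v h3 hvt)
      have e : z + (w.1 : X) + v = z + ((w.1 + v : L) : X) := by simp [add_assoc]
      rw [e]
      rcases Finset.mem_insert.1 hi with rfl | hi
      · intro k
        rw [hl, map_add (q j), h1, h3]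
        simpa using h4 i0 hi0 k
      · exact h4 i hi
    have h4 : z + x' ∉ cell φ κ j := fun h => by
      have h5 := h i0
      rw [hl] at h5
      have := mul_pos (hβ j) (sub_pos.2 (lt_of_le_of_ne (h1.1 j) h3))
      linarith
    obtain ⟨δ, hδ, hδ2⟩ := Metric.isOpen_iff.1 (cell_closed (φ := φ) (κ := κ) j).isOpen_compl _ h4
    refine ⟨(x', min (w.2 / 4) (δ / 2)), ⟨h1, by positivity⟩, ?_, fun x hx => hδ2 ?_⟩
    · unfold Sub; simp only; linarith [min_le_left (w.2 / 4) (δ / 2)]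
    · rw [mem_ball_iff_norm]
      simp only at hx
      linarith [min_le_right (w.2 / 4) (δ / 2)]
  obtain ⟨j, x, a, y, p, b, ε, g1, g2, g3, g5, g6, g7, g4, g8, g9⟩ :=
    game hrefl T.hinj hr L (fun j : J => (j : ι)) Subtype.val_injective B z Small hw0
      (min_le_right _ _) hgood hvis havoid
  have hyS := hin y g3
  have hxy := g2.mono_left Nat.hyperfilter_le_atTop
  have haD : ∀ n, ‖a n - (z + y)‖ ≤ K + 1 + C * r + ‖y‖ := fun n => by
    have : a n - (z + y) = (a n - z) - y := by abel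
    rw [this]
    exact (norm_sub_le _ _).trans (add_le_add (g6 n) le_rfl)
  have hD0 : 0 < K + 1 + C * r + ‖y‖ := by have := T.C_pos; positivity
  let E : Submodule ℝ (X →L[ℝ] ℝ) :=
    Submodule.span ℝ (insert p (Set.range fun γ : Γ => (γ : X →L[ℝ] ℝ)))
  have : FiniteDimensional ℝ E :=
    FiniteDimensional.span_of_finite ℝ ((Set.finite_range _).insert p)
  have hslope : ∀ i ∈ S, ∃ ψ, ψ ≠ 0 ∧
      Tendsto (fun n => φ (j n) - φ i) (hyperfilter ℕ) (𝓝 ψ) := by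
    intro i hi
    have hq' : ∀ n (v : L), (φ (j n) - φ i) v = β (j n) * q (j n) v := fun n v => by
      rw [← hq, sub_apply, hv2 v i hi]
    have hρ' : 0 < ρ⁻¹ := inv_pos.2 hρ
    have hw : ∀ᶠ n in (hyperfilter ℕ : Filter ℕ), ∃ w ∈ E,
        ‖φ (j n) - φ i - w‖ ≤ (K + 1 + ρ⁻¹) * ε n * ‖φ (j n) - φ i‖ := by
      refine g8.mono fun n hn => ?_
      have key : ∀ (c : ℝ) (f : X →L[ℝ] ℝ), (∀ v : L, f v = q (j n) v - c * p v) →
          ∃ w ∈ E, ‖φ (j n) - φ i - w‖ ≤ β (j n) * ‖f‖ := by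
        intro c f hf
        refine ⟨φ (j n) - φ i - β (j n) • f, ?_, ?_⟩
        · have h1 : φ (j n) - φ i - β (j n) • f - (β (j n) * c) • p ∈ E := by
            refine Submodule.span_mono (Set.subset_insert _ _)
              (mem_span_of_kers Γ _ fun v hv => ?_)
            have h2 := hq' n ⟨v, hv⟩
            have h3 := hf ⟨v, hv⟩
            simp only [sub_apply, smul_apply, smul_eq_mul] at h2 h3 ⊢
            rw [h2, h3]; ring
          have h2 : (β (j n) * c) • p ∈ E :=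
            E.smul_mem _ (Submodule.subset_span (Set.mem_insert _ _))
          simpa using E.add_mem h1 h2
        · have h1 : φ (j n) - φ i - (φ (j n) - φ i - β (j n) • f) = β (j n) • f := by
            ext v; simp
          rw [h1]
          refine (ContinuousLinearMap.opNorm_smul_le _ _).trans ?_
          rw [Real.norm_eq_abs, abs_of_pos (hβ _)]
      have hN := norm_nonneg (φ (j n) - φ i)
      have hb0 := hβ (j n)
      rcases hn with ⟨⟨x', h1, h2⟩, h3⟩ | h1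
      · obtain ⟨f, hf1, hf2⟩ := exists_extension_norm_eq L (q (j n) - res L p)
        obtain ⟨w, hwE, hw⟩ := key 1 f fun v => by rw [hf1, one_mul]; rfl
        refine ⟨w, hwE, hw.trans ?_⟩
        have h4 := (φ (j n) - φ i).le_opNorm (x' : X)
        have h5 := le_abs_self ((φ (j n) - φ i) (x' : X))
        rw [Real.norm_eq_abs] at h4
        have h6 := mul_le_mul_of_nonneg_left h2 hb0.le
        have h7 : ‖φ (j n) - φ i‖ * ‖(x' : X)‖ ≤ ‖φ (j n) - φ i‖ * (K + 1) :=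
          mul_le_mul_of_nonneg_left h1 hN
        rw [← hq'] at h6
        have h8 : β (j n) ≤ ‖φ (j n) - φ i‖ * (K + 1 + ρ⁻¹) := by nlinarith
        have h9 : ‖f‖ ≤ ε n := hf2.trans_le h3
        calc β (j n) * ‖f‖ ≤ ‖φ (j n) - φ i‖ * (K + 1 + ρ⁻¹) * ε n :=
              mul_le_mul h8 h9 (norm_nonneg _) (by positivity)
          _ = _ := by ring
      · obtain ⟨f, hf1, hf2⟩ := exists_extension_norm_eq L (q (j n))
        obtain ⟨w, hwE, hw⟩ := key 0 f fun v => by rw [hf1]; simp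
        refine ⟨w, hwE, hw.trans ?_⟩
        have h2 := h1 i hi
        have h9 : ‖f‖ ≤ K + 1 + ρ⁻¹ := by linarith [hf2.trans_le (B.hM (j n))]
        calc β (j n) * ‖f‖ ≤ ε n * ‖φ (j n) - φ i‖ * (K + 1 + ρ⁻¹) :=
              mul_le_mul h2 h9 (norm_nonneg _) (hb0.le.trans h2)
          _ = _ := by ring
    refine slope_lim hr (hyperfilter ℕ) (hyS i hi) (fun n => j n) x a g1 hxy g5 hD0 haD E
      (fun n => if ∃ w ∈ E, ‖φ (j n) - φ i - w‖ ≤ (K + 1 + ρ⁻¹) * ε n * ‖φ (j n) - φ i‖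
        then (K + 1 + ρ⁻¹) * ε n else 1) ?_ (fun n => ?_) (fun n h => ?_)
    · have h1 : Tendsto (fun n => (K + 1 + ρ⁻¹) * ε n) (hyperfilter ℕ) (𝓝 0) := by
        simpa using g4.const_mul (K + 1 + ρ⁻¹)
      exact h1.congr' (hw.mono fun n hn => (if_pos hn).symm)
    · split_ifs with h
      · exact h
      · exact ⟨0, E.zero_mem, by simp⟩
    · have h1 := g1 n i
      have h2 := hz0 i hi (j n)
      rw [h] at h1 h2
      have h3 := T.hinj _ _ h (by linarith)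
      exact (j n).2 (h3 ▸ hi)
  obtain ⟨ψ, -, hψ⟩ := hslope i0 hi0
  have hp : Tendsto (fun n => φ (j n)) (hyperfilter ℕ) (𝓝 (ψ + φ i0)) := by
    simpa using hψ.add_const (φ i0)
  obtain ⟨k, hk1, hk2, hk3⟩ := real_cell T.hcov hr (hyperfilter ℕ) (hyS i0 hi0) (fun n => j n)
    x a g1 hxy g5 haD _ hp b g7
  refine g9 ⟨k, fun hkS => ?_⟩ hk2 hk3
  obtain ⟨ψ', h1, h2⟩ := hslope k hkS
  have h3 := hp.sub_const (φ k)
  rw [hk1, sub_self, ← hk1] at h3
  exact h1 (tendsto_nhds_unique h2 h3)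

end Pool.Agent.P.MP_73700b_an.Reg
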