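import Pool.Agent.P.MP_73700b_an.RegE

/-!
Regular tilings by uniformly fat tiles of reflexive spaces are not point-finite.
-/

namespace Pool.Agent.P.MP_73700b_an.Reg

open Filter Topology

variable {X : Type*} [NormedAddCommGroup X] [NormedSpace ℝ X] {ι : Type*}
variable {φ : ι → X →L[ℝ] ℝ} {κ : ι → ℝ} {sz : ι → ℝ} {ctr : ι → X} {C : ℝ}

theorem chain [CompleteSpace X] (hinf : ¬ FiniteDimensional ℝ X)
    (hrefl : Function.Surjective (NormedSpace.inclusionInDoubleDual ℝ X))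
    (T : Cells φ κ sz ctr C) (hpf : ∀ x, {i | x ∈ cell φ κ i}.Finite) (i0 : ι) (S0 : Finset ι)
    (hi0 : i0 ∉ S0) : ∃ S : Finset ι, Disjoint S S0 ∧ ∃ y ∈ cell φ κ i0, Tiny φ κ sz S y := by
  classical
  by_contra hcon
  push Not at hcon
  let Γ0 : Finset (X →L[ℝ] ℝ) := S0.image fun i => φ i0 - φ i
  let P : Finset ι × Finset (X →L[ℝ] ℝ) × X → Prop := fun t =>
    i0 ∈ t.1 ∧ Fat φ κ t.1 t.2.1 t.2.2 ∧ Γ0 ⊆ t.2.1 ∧ t.2.2 - ctr i0 ∈ kers Γ0
  have hmem : ∀ t, P t → ∀ i ∈ t.1, t.2.2 ∈ cell φ κ i := by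
    rintro t ⟨-, ⟨-, ρ, hρ, h⟩, -⟩ i hi
    simpa using h 0 (Submodule.zero_mem _) (by simpa using hρ.le) i hi
  have h0 : P ({i0}, Γ0, ctr i0) := by
    refine ⟨Finset.mem_singleton_self _, ⟨fun v _ i hi i' hi' => ?_, sz i0, T.sz_pos i0,
      fun v _ hv i hi => ?_⟩, subset_rfl, by simp⟩
    · rw [Finset.mem_singleton.1 hi, Finset.mem_singleton.1 hi']
    · rw [Finset.mem_singleton.1 hi]; exact T.inner i0 v hv
  have hstep : ∀ t : {t // P t}, ∃ t' : {t // P t}, t.1.1 ⊂ t'.1.1 := by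
    rintro ⟨⟨S, Γ, z⟩, ht⟩
    have hm := hmem _ ht
    obtain ⟨h1, h2, h3, h4⟩ := ht
    simp only at h1 h2 h3 h4 hm
    rcases step hinf hrefl T S h1 Γ z h2 with ⟨j, hj, Γ', z', h5, h6, h7⟩ | ⟨y, hy, hy2⟩
    · refine ⟨⟨(insert j S, Γ', z'), Finset.mem_insert_of_mem h1, h7, h3.trans h5, ?_⟩,
        Finset.ssubset_insert hj⟩
      have : z' - ctr i0 = (z' - z) + (z - ctr i0) := by abel
      simp only
      rw [this]
      exact Submodule.add_mem _ (fun γ hγ => h6 γ (h3 hγ)) h4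
    · refine absurd hy2 (hcon S (Finset.disjoint_left.2 fun i hi hi' => ?_) y hy)
      have h5 := h4 _ (Finset.mem_image_of_mem (fun i => φ i0 - φ i) hi')
      have h6 := hm i hi i0
      have h7 := (T.inner i0).gap (T.sz_pos i0) i
      simp only [map_sub, sub_apply] at h5
      have h8 : 0 ≤ sz i0 * ‖φ i0 - φ i‖ := by have := T.sz_pos i0; positivity
      have h9 : sz i0 * ‖φ i0 - φ i‖ = 0 := by linarith
      have h10 : φ i0 = φ i := sub_eq_zero.1 (norm_eq_zero.1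
        ((mul_eq_zero.1 h9).resolve_left (T.sz_pos i0).ne'))
      rw [h9] at h7
      rw [h10] at h6 h7
      exact hi0 (T.hinj _ _ h10 (by linarith) ▸ hi')
  choose nx hnx using hstep
  let S : ℕ → {t // P t} := fun n => nx^[n] ⟨_, h0⟩
  have hS : StrictMono fun n => (S n).1.1 := strictMono_nat_of_lt_succ fun n => by
    simp only [S, Function.iterate_succ_apply']
    exact hnx _
  obtain ⟨x, hx⟩ := exists_weak_lim hrefl (hyperfilter ℕ) (fun n => (S n).1.2.2)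
    (C * sz i0 + ‖ctr i0‖) fun n => by
      linarith [T.outer i0 _ (hmem _ (S n).2 i0 (S n).2.1), norm_sub_norm_le (S n).1.2.2 (ctr i0)]
  have hall : ∀ n, ∀ i ∈ (S n).1.1, x ∈ cell φ κ i := fun n i hi k =>
    le_of_tendsto_of_tendsto ((hx (φ k)).add_const (κ k)) ((hx (φ i)).add_const (κ i))
      (((eventually_ge_atTop n).filter_mono Nat.hyperfilter_le_atTop).mono fun m hm =>
        hmem _ (S m).2 i (hS.monotone hm hi) k)
  have hfin := hpf x
  have h1 : ∀ n, (S n).1.1.card ≤ hfin.toFinset.card := fun n =>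
    Finset.card_le_card fun i hi => hfin.mem_toFinset.2 (hall n i hi)
  have h2 : StrictMono fun n => (S n).1.1.card := fun a b hab => Finset.card_lt_card (hS hab)
  have h3 := h2.id_le (hfin.toFinset.card + 1)
  have h4 := h1 (hfin.toFinset.card + 1)
  simp only [id] at h3
  omega

theorem main_idx [CompleteSpace X] (hinf : ¬ FiniteDimensional ℝ X)
    (hrefl : Function.Surjective (NormedSpace.inclusionInDoubleDual ℝ X))
    (T : Cells φ κ sz ctr C) : ∃ x, {i | x ∈ cell φ κ i}.Infinite := by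
  by_contra hpf
  push Not at hpf
  have hC := T.C_pos
  let P : Finset ι × X × ℝ → Prop := fun t => Tiny φ κ sz t.1 t.2.1 ∧ 0 < t.2.2
  obtain ⟨i0, -⟩ := T.hcov 0
  obtain ⟨S0, -, y0, -, hy0⟩ := chain hinf hrefl T hpf i0 ∅ (by simp)
  have hstep : ∀ (n : ℕ) (t : {t // P t}), ∃ t' : {t // P t}, Disjoint t'.1.1 t.1.1 ∧
      Sub t'.1.2 t.1.2 ∧ ∀ j, j ∉ t'.1.1 → ∀ x ∈ cell φ κ j, ‖x - t'.1.2.1‖ ≤ t'.1.2.2 →
        sz j < 1 / ((n : ℝ) + 1) := by
    rintro n ⟨⟨S, y, τ⟩, ⟨h1, h2⟩, hτ⟩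
    simp only at h1 h2 hτ
    obtain ⟨τ1, hτ1, h3⟩ := h1 (τ / (8 * C)) (by positivity)
    obtain ⟨j, hj, x, hx, hxy⟩ := h2 (min τ1 (τ / 4)) (by positivity)
    have h4 := h3 j hj x hx (hxy.trans (min_le_left _ _))
    obtain ⟨S', h5, y', hy', h6⟩ := chain hinf hrefl T hpf j S hj
    obtain ⟨τ2, hτ2, h7⟩ := h6.1 (1 / ((n : ℝ) + 1)) (by positivity)
    refine ⟨⟨(S', y', min τ2 (τ / 4)), h6, by positivity⟩, h5, ?_,
      fun k hk x' hx' h8 => h7 k hk x' hx' (h8.trans (min_le_left _ _))⟩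
    unfold Sub
    simp only
    have a1 := T.outer j y' hy'
    have a2 := T.outer j x hx
    have a3 := norm_sub_le_norm_sub_add_norm_sub y' (ctr j) x
    rw [norm_sub_rev (ctr j)] at a3
    have a4 := norm_sub_le_norm_sub_add_norm_sub y' x y
    rw [lt_div_iff₀ (by positivity)] at h4
    linarith [min_le_right τ1 (τ / 4), min_le_right τ2 (τ / 4)]
  choose nx h1 h2 h3 using hstep
  let t : ℕ → {t // P t} := fun n => Nat.rec ⟨(S0, y0, 1), hy0, one_pos⟩ nx n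
  obtain ⟨-, -, y, hy⟩ := nested (fun n => (t n).1.2) (fun n => (t n).2.2) fun n => h2 n (t n)
  obtain ⟨k, hk⟩ := T.hcov y
  obtain ⟨n, hn⟩ := exists_nat_one_div_lt (T.sz_pos k)
  have hmem : ∀ m, n ≤ m → k ∈ (t (m + 1)).1.1 := by
    intro m hm
    by_contra h
    have h4 := h3 m (t m) k h y hk (hy (m + 1))
    have h5 : 1 / ((m : ℝ) + 1) ≤ 1 / ((n : ℝ) + 1) := Nat.one_div_le_one_div hm
    linarith
  exact Finset.disjoint_left.1 (h1 (n + 1) (t (n + 1))) (hmem (n + 1) (by omega)) (hmem n le_rfl)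

theorem main (X : Type*) [NormedAddCommGroup X] [NormedSpace ℝ X] [CompleteSpace X]
    (hinf : ¬ FiniteDimensional ℝ X)
    (hrefl : Function.Surjective (NormedSpace.inclusionInDoubleDual ℝ X))
    (𝓣 : Set (Set X)) (l : 𝓣 → X →ᴬ[ℝ] ℝ) (C : ℝ) (hcov : ⋃₀ 𝓣 = Set.univ)
    (hreg : ∀ T : 𝓣, (T : Set X) = {x | ∀ T' : 𝓣, l T' x ≤ l T x})
    (hfat : ∀ T ∈ 𝓣, ∃ (a : X) (s : ℝ), 0 < s ∧ Metric.closedBall a s ⊆ T ∧
      T ⊆ Metric.closedBall a (C * s)) :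
    ∃ x : X, {T ∈ 𝓣 | x ∈ T}.Infinite := by
  let φ : 𝓣 → X →L[ℝ] ℝ := fun T => (l T).contLinear
  let κ : 𝓣 → ℝ := fun T => l T 0
  have hl : ∀ T x, l T x = φ T x + κ T := fun T x => by
    have := (l T).map_vadd 0 x
    rw [vadd_eq_add, add_zero] at this
    exact this
  have hc : ∀ T : 𝓣, (T : Set X) = cell φ κ T := fun T => by
    rw [hreg T]; simp only [hl]; rfl
  choose ctr sz h1 h2 h3 using fun T : 𝓣 => hfat T T.2
  have hT : Cells φ κ sz ctr (max C 1) := by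
    refine ⟨fun i j hφ hκ => Subtype.ext ?_, fun x => ?_, by positivity, h1, fun i h hh => ?_,
      fun i x hx => ?_⟩
    · rw [hc, hc]; unfold cell; rw [hφ, hκ]
    · obtain ⟨T, hT, hx⟩ : x ∈ ⋃₀ 𝓣 := hcov ▸ Set.mem_univ x
      exact ⟨⟨T, hT⟩, hc ⟨T, hT⟩ ▸ hx⟩
    · rw [← hc]
      exact h2 i (by simpa [mem_closedBall_iff_norm] using hh)
    · rw [← hc] at hx
      exact (mem_closedBall_iff_norm.1 (h3 i hx)).trans
        (mul_le_mul_of_nonneg_right (le_max_left _ _) (h1 i).le)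
  obtain ⟨x, hx⟩ := main_idx hinf hrefl hT
  refine ⟨x, (hx.image Subtype.val_injective.injOn).mono ?_⟩
  rintro _ ⟨T, hT, rfl⟩
  exact ⟨T.2, (hc T).symm ▸ hT⟩

end Pool.Agent.P.MP_73700b_an.Reg
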