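import Mathlib

/-!
Renorming a Hilbert space by the gauge of a bounded closed symmetric convex body.
-/

open Metric Set
open scoped InnerProductSpace

namespace Pool.Agent.P.MP_73700b_an

/-- A copy of the underlying vector space, without its norm. -/
def Syn (H : Type) : Type := H

instance (H : Type) [AddCommGroup H] : AddCommGroup (Syn H) := inferInstanceAs (AddCommGroup H)

instance (H : Type) [AddCommGroup H] [Module ℝ H] : Module ℝ (Syn H) :=
  inferInstanceAs (Module ℝ H)

/-- The identity map from the copy to the space. -/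
def synEquiv (H : Type) [AddCommGroup H] [Module ℝ H] : Syn H ≃ₗ[ℝ] H := LinearEquiv.refl ℝ H

theorem exists_renorm {H : Type} [NormedAddCommGroup H] [NormedSpace ℝ H] (B : Set H)
    (hc : Convex ℝ B) (hcl : IsClosed B) (hs : ∀ x ∈ B, -x ∈ B) (r M : ℝ) (hr : 0 < r)
    (hM : 0 < M) (h1 : closedBall 0 r ⊆ B) (h2 : B ⊆ closedBall 0 M) :
    ∃ (X : Type) (_ : NormedAddCommGroup X) (_ : NormedSpace ℝ X) (T : X ≃L[ℝ] H),
      ∀ x, ‖x‖ ≤ 1 ↔ T x ∈ B := by
  have hn : B ∈ nhds (0 : H) := Filter.mem_of_superset (closedBall_mem_nhds 0 hr) h1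
  have habs : Absorbent ℝ B := absorbent_nhds_zero hn
  have hbal : Balanced ℝ B := (balanced_iff_neg_mem hc).2 (fun {x} hx => hs x hx)
  have hlow : ∀ x : H, ‖x‖ / M ≤ gauge B x := fun x =>
    le_gauge_of_subset_closedBall habs hM.le h2
  have hup : ∀ x : H, r * gauge B x ≤ ‖x‖ := fun x =>
    mul_gauge_le_norm (ball_subset_closedBall.trans h1)
  let p : Seminorm ℝ H := gaugeSeminorm hbal hc habs
  have hp : ∀ x, p x = gauge B x := fun _ => rfl
  let N : AddGroupNorm (Syn H) :=
    { toFun := fun x => p (synEquiv H x)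
      map_zero' := by simp
      add_le' := fun x y => by rw [map_add]; exact map_add_le_add p _ _
      neg' := fun x => by rw [map_neg, map_neg_eq_map]
      eq_zero_of_map_eq_zero' := fun x hx => by
        have h := hlow (synEquiv H x)
        rw [← hp, hx] at h
        have h0 : ‖synEquiv H x‖ ≤ 0 := by
          have := (div_le_iff₀ hM).1 h
          simpa using this
        have : synEquiv H x = 0 := norm_le_zero_iff.1 h0
        exact (synEquiv H).map_eq_zero_iff.1 this }
  let i1 : NormedAddCommGroup (Syn H) := AddGroupNorm.toNormedAddCommGroup N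
  have hN : ∀ x : Syn H, ‖x‖ = p (synEquiv H x) := fun _ => rfl
  let i2 : NormedSpace ℝ (Syn H) :=
    { (inferInstance : Module ℝ (Syn H)) with
      norm_smul_le := fun a x => by
        rw [hN, hN, map_smul, map_smul_eq_mul] }
  refine ⟨Syn H, i1, i2, (synEquiv H).toContinuousLinearEquivOfBounds M r⁻¹ ?_ ?_, ?_⟩
  · intro x
    rw [hN, hp]
    have := (div_le_iff₀ hM).1 (hlow (synEquiv H x))
    linarith
  · intro x
    rw [hN, hp, LinearEquiv.apply_symm_apply]
    have := hup x
    rw [inv_mul_eq_div, le_div_iff₀ hr]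
    linarith
  · intro x
    rw [hN, hp, gauge_le_one_iff_mem_closure hc hn, hcl.closure_eq]
    rfl

theorem reflexive_of_equiv {H X : Type} [NormedAddCommGroup H] [InnerProductSpace ℝ H]
    [CompleteSpace H] [NormedAddCommGroup X] [NormedSpace ℝ X] (T : X ≃L[ℝ] H) :
    Function.Surjective (NormedSpace.inclusionInDoubleDual ℝ X) := by
  intro Φ
  let A : H →L[ℝ] StrongDual ℝ X :=
    ((ContinuousLinearMap.compL ℝ X H ℝ).flip (T : X →L[ℝ] H)).comp (innerSL ℝ (E := H))
  have hA : ∀ h x, A h x = ⟪h, T x⟫_ℝ := fun h x => by simp [A]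
  let f : StrongDual ℝ H := Φ.comp A
  let z : H := (InnerProductSpace.toDual ℝ H).symm f
  refine ⟨T.symm z, ?_⟩
  ext g
  let h : H := (InnerProductSpace.toDual ℝ H).symm (g.comp (T.symm : H →L[ℝ] X))
  have hg : g = A h := by
    ext x
    rw [hA, InnerProductSpace.toDual_symm_apply]
    simp
  have h1 : Φ g = ⟪z, h⟫_ℝ := by
    rw [InnerProductSpace.toDual_symm_apply, hg]
    rfl
  rw [NormedSpace.dual_def, h1, real_inner_comm, InnerProductSpace.toDual_symm_apply]
  simp

theorem complete_of_equiv {H X : Type} [NormedAddCommGroup H] [NormedSpace ℝ H]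
    [CompleteSpace H] [NormedAddCommGroup X] [NormedSpace ℝ X] (T : X ≃L[ℝ] H) :
    CompleteSpace X :=
  (completeSpace_congr (e := T.toEquiv) T.isUniformEmbedding).2 inferInstance

end Pool.Agent.P.MP_73700b_an
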